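import Mathlib
import Pool.Agent.Helper23.EABasic

set_option autoImplicit false
open MeasureTheory Set Function
open scoped ENNReal symmDiff

namespace Pool.Agent.Helper40.EA

open Pool.Agent.Helper23.EA

variable {E X : Type*} [DecidableEq E] [MeasurableSpace X]
  (μ : Measure X) [IsProbabilityMeasure μ]

omit [DecidableEq E] in
/-- Relabelling the coordinates preserves the i.i.d. law. -/
lemma map_comp_equiv (g : E ≃ E) :
    (Measure.infinitePi fun _ : E => μ).map (fun J : E → X => J ∘ g)
      = Measure.infinitePi fun _ : E => μ := by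
  have hm : Measurable (fun J : E → X => J ∘ g) :=
    measurable_pi_iff.2 fun i => measurable_pi_apply (g i)
  refine Measure.eq_infinitePi _ fun s t ht => ?_
  rw [Measure.map_apply hm (MeasurableSet.pi s.countable_toSet fun i _ => ht i)]
  have hpre : (fun J : E → X => J ∘ g) ⁻¹' (Set.pi s t)
      = Set.pi (s.map g.toEmbedding : Finset E) (fun i => t (g.symm i)) := by
    ext J
    simp only [mem_preimage, Set.mem_pi, Finset.mem_coe, Finset.mem_map, comp_apply,
      Equiv.coe_toEmbedding, forall_exists_index, and_imp, forall_apply_eq_imp_iff₂,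
      Equiv.symm_apply_apply]
  rw [hpre, Measure.infinitePi_pi (fun _ : E => μ) (fun i _ => ht _), Finset.prod_map]
  simp

omit [DecidableEq E] in
lemma cyl_approx [Countable E] {A : Set (E → X)} (hA : MeasurableSet A) {ε : ℝ≥0∞} (hε : 0 < ε) :
    ∃ C : Set (E → X), MeasurableSet C ∧ (∃ F : Finset E, ∀ J J' : E → X,
      (∀ i ∈ F, J i = J' i) → (J ∈ C ↔ J' ∈ C)) ∧
      (Measure.infinitePi fun _ : E => μ) (C ∆ A) < ε := by
  obtain ⟨C, hC, hlt⟩ := exists_measure_symmDiff_lt_of_generateFrom_isSetRing
    (μ := Measure.infinitePi fun _ : E => μ)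
    (isSetRing_measurableCylinders (α := fun _ : E => X))
    ⟨{univ}, by simp, by
      rw [singleton_subset_iff]
      exact isSetAlgebra_measurableCylinders.univ_mem, by simp⟩
    (generateFrom_measurableCylinders (α := fun _ : E => X)).symm hA hε
  obtain ⟨F, S, hS, rfl⟩ := (mem_measurableCylinders _).1 hC
  refine ⟨_, hS.cylinder, ⟨F, fun J J' h => ?_⟩, hlt⟩
  simp only [mem_cylinder]
  have : F.restrict J = F.restrict J' := by
    funext i; exact h i i.2
  rw [this]

/-- **Influence lemma**: if a measurable event is invariant under relabellings which move `e` out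
of every finite set, then resampling the coordinate `e` does not change it. -/
theorem influence [Countable E] {A : Set (E → X)} (hA : MeasurableSet A) (e : E)
    (hinv : ∀ F : Finset E, ∃ g : E ≃ E, g e ∉ F ∧ ∀ J : E → X, J ∘ g ∈ A ↔ J ∈ A) :
    ∀ᵐ J ∂(Measure.infinitePi fun _ : E => μ), ∀ᵐ x ∂μ,
      (J ∈ A ↔ Function.update J e x ∈ A) := by
  set P := Measure.infinitePi fun _ : E => μ with hP
  have hmU : ∀ f : E, Measurable (fun p : X × (E → X) => Function.update p.2 f p.1) := by
    intro f
    refine measurable_pi_iff.2 fun i => ?_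
    by_cases h : i = f
    · subst h; simpa using measurable_fst
    · simp only [Function.update_of_ne h]
      exact (measurable_pi_apply i).comp measurable_snd
  have hmapU : ∀ f : E, (μ.prod P).map (fun p : X × (E → X) => Function.update p.2 f p.1) = P :=
    fun f => map_update_prod (fun _ : E => μ) f
  -- the disagreement sets
  let D : E → Set (X × (E → X)) := fun f => {p | ¬ (p.2 ∈ A ↔ Function.update p.2 f p.1 ∈ A)}
  have hDm : ∀ f, MeasurableSet (D f) := by
    intro f
    have h1 : MeasurableSet {p : X × (E → X) | p.2 ∈ A} := measurable_snd hA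
    have h2 : MeasurableSet {p : X × (E → X) | Function.update p.2 f p.1 ∈ A} := hmU f hA
    have : D f = ({p : X × (E → X) | p.2 ∈ A} ∆ {p : X × (E → X) | Function.update p.2 f p.1 ∈ A}) := by
      ext p
      simp only [D, mem_ofPred_eq, mem_symmDiff]
      tauto
    rw [this]
    exact h1.symmDiff h2
  have hDe : (μ.prod P) (D e) = 0 := by
    refine le_antisymm (ENNReal.le_of_forall_pos_le_add fun ε hε _ => ?_) bot_le
    rw [zero_add]
    obtain ⟨C, hCm, ⟨F, hF⟩, hlt⟩ := cyl_approx μ hA (ε := (ε : ℝ≥0∞) / 2)
      (ENNReal.half_pos (by exact_mod_cast hε.ne'))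
    obtain ⟨g, hgF, hg⟩ := hinv F
    -- transport by g
    have h1 : (μ.prod P) (D e) = (μ.prod P) (D (g e)) := by
      have hmg : Measurable (fun J : E → X => J ∘ g) :=
        measurable_pi_iff.2 fun i => measurable_pi_apply (g i)
      have hmp : (μ.prod P).map (Prod.map id (fun J : E → X => J ∘ g)) = μ.prod P := by
        rw [← Measure.map_prod_map _ _ measurable_id hmg, Measure.map_id, hP, map_comp_equiv]
      conv_lhs => rw [← hmp]
      rw [Measure.map_apply (measurable_id.prodMap hmg) (hDm e)]
      have hset : (Prod.map id (fun J : E → X => J ∘ g)) ⁻¹' D e = D (g e) := by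
        ext ⟨x, J⟩
        have hup : Function.update (J ∘ g) e x = (Function.update J (g e) x) ∘ g := by
          funext i
          by_cases hi : i = e
          · subst hi; simp
          · have : g i ≠ g e := fun h => hi (g.injective h)
            simp [Function.update_of_ne hi, Function.update_of_ne this]
        simp only [mem_preimage, Prod.map_apply, id_eq, D, mem_ofPred_eq, hup, hg]
      rw [hset]
    rw [h1]
    have h2 : D (g e) ⊆ (Prod.snd ⁻¹' (C ∆ A)) ∪
        ((fun p : X × (E → X) => Function.update p.2 (g e) p.1) ⁻¹' (C ∆ A)) := by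
      rintro ⟨x, J⟩ hp
      have hC' : J ∈ C ↔ Function.update J (g e) x ∈ C := by
        refine hF _ _ fun i hi => ?_
        rw [Function.update_of_ne]
        rintro rfl; exact hgF hi
      simp only [D, mem_ofPred_eq] at hp
      simp only [mem_union, mem_preimage, mem_symmDiff]
      tauto
    have hsm : MeasurableSet (C ∆ A) := hCm.symmDiff hA
    calc (μ.prod P) (D (g e)) ≤ (μ.prod P) (Prod.snd ⁻¹' (C ∆ A))
          + (μ.prod P) ((fun p : X × (E → X) => Function.update p.2 (g e) p.1) ⁻¹' (C ∆ A)) :=
          (measure_mono h2).trans (measure_union_le _ _)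
      _ = P (C ∆ A) + P (C ∆ A) := by
          congr 1
          · rw [← Measure.map_apply measurable_snd hsm]
            simp [Measure.map_snd_prod]
          · rw [← Measure.map_apply (hmU (g e)) hsm, hmapU]
      _ ≤ ε / 2 + ε / 2 := add_le_add hlt.le hlt.le
      _ = ε := ENNReal.add_halves _
  have hae : ∀ᵐ p ∂(μ.prod P), (p.2 ∈ A ↔ Function.update p.2 e p.1 ∈ A) := by
    rw [ae_iff]; exact hDe
  have hswap : ∀ᵐ q ∂(P.prod μ), (q.1 ∈ A ↔ Function.update q.1 e q.2 ∈ A) := by
    rw [← Measure.prod_swap]
    rw [ae_map_iff measurable_swap.aemeasurable]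
    · exact hae
    · have h1 : MeasurableSet {q : (E → X) × X | q.1 ∈ A} := measurable_fst hA
      have h2 : MeasurableSet {q : (E → X) × X | Function.update q.1 e q.2 ∈ A} :=
        ((hmU e).comp measurable_swap) hA
      have : {q : (E → X) × X | q.1 ∈ A ↔ Function.update q.1 e q.2 ∈ A}
          = ({q : (E → X) × X | q.1 ∈ A} ∆ {q : (E → X) × X | Function.update q.1 e q.2 ∈ A})ᶜ := by
        ext q
        simp only [mem_ofPred_eq, mem_symmDiff, mem_compl_iff]
        tauto
      rw [this]
      exact (h1.symmDiff h2).compl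
  exact Measure.ae_ae_of_ae_prod hswap

end Pool.Agent.Helper40.EA
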