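import Mathlib
import Pool.Agent.Helper23.EABasic

set_option autoImplicit false
open MeasureTheory Set Function
open scoped ENNReal

namespace Pool.Agent.Helper40.EA

open Pool.Agent.Helper23.EA

variable {V E : Type*} (a b : E → V) (hlf : ∀ v, {e | a e = v ∨ b e = v}.Finite)

/-- finitely many weak ground states -/
def FinGS (J : E → ℝ) : Prop := {σ : V → Bool | WGS a b hlf J σ}.Finite

/-- the finite set `Λ` separates the weak ground states -/
def Sep (Λ : Finset V) : Set (E → ℝ) :=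
  {J | ∀ σ τ, WGS a b hlf J σ → WGS a b hlf J τ → (∀ v ∈ Λ, σ v = τ v) → σ = τ}

/-- some weak ground state extends the pattern `w` on `Λ` -/
def PW (Λ : Finset V) (w : Λ → Bool) : Set (E → ℝ) :=
  {J | ∃ σ, WGS a b hlf J σ ∧ ∀ v : Λ, σ v = w v}

/-- some weak ground state extends the pattern `w` on `Λ` and is `true` at `x` -/
def PWx (Λ : Finset V) (w : Λ → Bool) (x : V) : Set (E → ℝ) :=
  {J | ∃ σ, WGS a b hlf J σ ∧ (∀ v : Λ, σ v = w v) ∧ σ x = true}

lemma isClosed_proj {C : Set ((E → ℝ) × (V → Bool))} (hC : IsClosed C) :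
    IsClosed {J | ∃ σ, (J, σ) ∈ C} := by
  have h2 : {J | ∃ σ, (J, σ) ∈ C} = Prod.fst '' C := by
    ext J; simp
  rw [h2]
  exact isClosedMap_fst_of_compactSpace _ hC

lemma isClosed_eval (x : V) (c : Bool) :
    IsClosed {p : (E → ℝ) × (V → Bool) | p.2 x = c} :=
  isClosed_eq ((continuous_apply x).comp continuous_snd) continuous_const

lemma isClosed_pat (Λ : Finset V) (w : Λ → Bool) :
    IsClosed {p : (E → ℝ) × (V → Bool) | ∀ v : Λ, p.2 v = w v} := by
  have h : {p : (E → ℝ) × (V → Bool) | ∀ v : Λ, p.2 v = w v}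
      = ⋂ v : Λ, {p : (E → ℝ) × (V → Bool) | p.2 v = w v} := by
    ext p; simp
  rw [h]
  exact isClosed_iInter fun v => isClosed_eval (v : V) (w v)

lemma isClosed_PW (Λ : Finset V) (w : Λ → Bool) : IsClosed (PW a b hlf Λ w) :=
  isClosed_proj ((isClosed_WGS a b hlf).inter (isClosed_pat Λ w))

lemma isClosed_PWx (Λ : Finset V) (w : Λ → Bool) (x : V) : IsClosed (PWx a b hlf Λ w x) := by
  exact isClosed_proj ((isClosed_WGS a b hlf).inter
    ((isClosed_pat Λ w).inter (isClosed_eval x true)))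

lemma isClosed_proj2 {C : Set ((E → ℝ) × ((V → Bool) × (V → Bool)))} (hC : IsClosed C) :
    IsClosed {J | ∃ p, (J, p) ∈ C} := by
  have h2 : {J | ∃ p, (J, p) ∈ C} = Prod.fst '' C := by
    ext J; simp
  rw [h2]
  exact isClosedMap_fst_of_compactSpace _ hC

lemma measurableSet_Sep [Countable V] [Countable E] (Λ : Finset V) :
    MeasurableSet (Sep a b hlf Λ) := by
  have h : Sep a b hlf Λ = (⋃ x : V, {J | ∃ p : (V → Bool) × (V → Bool), (J, p) ∈
      {q : (E → ℝ) × ((V → Bool) × (V → Bool)) | WGS a b hlf q.1 q.2.1 ∧ WGS a b hlf q.1 q.2.2 ∧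
        (∀ v : Λ, q.2.1 v = q.2.2 v) ∧ (q.2.1 x = true ∧ q.2.2 x = false)}})ᶜ := by
    ext J
    simp only [Sep, mem_ofPred_eq, mem_compl_iff, mem_iUnion, Prod.exists, not_exists, not_and]
    constructor
    · intro h x σ τ hσ hτ hag h1 h2
      have := h σ τ hσ hτ fun v hv => hag ⟨v, hv⟩
      rw [this, h2] at h1
      exact Bool.false_ne_true h1
    · intro h σ τ hσ hτ hag
      funext x
      by_contra hne
      cases h1 : σ x <;> cases h2 : τ x
      · exact hne (by rw [h1, h2])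
      · exact h x τ σ hτ hσ (fun v => (hag v v.2).symm) h2 h1
      · exact h x σ τ hσ hτ (fun v => hag v v.2) h1 h2
      · exact hne (by rw [h1, h2])
  rw [h]
  refine (MeasurableSet.iUnion fun x => ?_).compl
  refine (isClosed_proj2 ?_).measurableSet
  have c1 : Continuous fun q : (E → ℝ) × ((V → Bool) × (V → Bool)) => (q.1, q.2.1) := by fun_prop
  have c2 : Continuous fun q : (E → ℝ) × ((V → Bool) × (V → Bool)) => (q.1, q.2.2) := by fun_prop
  refine ((isClosed_WGS a b hlf).preimage c1).inter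
    (((isClosed_WGS a b hlf).preimage c2).inter (IsClosed.inter ?_ (IsClosed.inter ?_ ?_)))
  · have h : {q : (E → ℝ) × ((V → Bool) × (V → Bool)) | ∀ v : Λ, q.2.1 v = q.2.2 v}
        = ⋂ v : Λ, {q : (E → ℝ) × ((V → Bool) × (V → Bool)) | q.2.1 v = q.2.2 v} := by
      ext p; simp
    have h' : IsClosed {q : (E → ℝ) × ((V → Bool) × (V → Bool)) | ∀ v : Λ, q.2.1 v = q.2.2 v} := by
      rw [h]
      exact isClosed_iInter fun v => isClosed_eq (by fun_prop) (by fun_prop)
    exact h'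
  · exact isClosed_eq (by fun_prop) continuous_const
  · exact isClosed_eq (by fun_prop) continuous_const

/-- the candidate ground state with pattern `w` -/
noncomputable def sel (Λ : Finset V) (w : Λ → Bool) (J : E → ℝ) : V → Bool := by
  classical exact fun x => decide (J ∈ PWx a b hlf Λ w x)

lemma measurable_sel [Countable E] (Λ : Finset V) (w : Λ → Bool) :
    Measurable (sel a b hlf Λ w) := by
  classical
  refine measurable_pi_iff.2 fun x => ?_
  have : (fun J => sel a b hlf Λ w J x) = fun J => decide (J ∈ PWx a b hlf Λ w x) := by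
    funext J; simp only [sel]
  rw [this]
  exact measurable_to_bool (by
    have : (fun J => decide (J ∈ PWx a b hlf Λ w x)) ⁻¹' {true} = PWx a b hlf Λ w x := by
      ext J; simp
    rw [this]
    exact (isClosed_PWx a b hlf Λ w x).measurableSet)

lemma sel_eq {Λ : Finset V} {w : Λ → Bool} {J : E → ℝ} (hS : J ∈ Sep a b hlf Λ) {σ : V → Bool}
    (hσ : WGS a b hlf J σ) (hw : ∀ v : Λ, σ v = w v) : sel a b hlf Λ w J = σ := by
  classical
  funext x
  unfold sel
  cases hx : σ x
  · rw [decide_eq_false_iff_not]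
    rintro ⟨τ, hτ, hw', hx'⟩
    have := hS τ σ hτ hσ fun v hv => by rw [hw' ⟨v, hv⟩, hw ⟨v, hv⟩]
    rw [this, hx] at hx'
    exact Bool.false_ne_true hx'
  · rw [decide_eq_true_iff]
    exact ⟨σ, hσ, hw, hx⟩

lemma finGS_iff (J : E → ℝ) : FinGS a b hlf J ↔ ∃ Λ : Finset V, J ∈ Sep a b hlf Λ := by
  classical
  constructor
  · intro h
    let S : Finset (V → Bool) := h.toFinset
    let f : (V → Bool) × (V → Bool) → Finset V := fun p =>
      if hp : ∃ v, p.1 v ≠ p.2 v then {hp.choose} else ∅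
    refine ⟨(S ×ˢ S).biUnion f, fun σ τ hσ hτ hag => ?_⟩
    by_contra hne
    have hp : ∃ v, σ v ≠ τ v := by
      by_contra hcon
      push Not at hcon
      exact hne (funext hcon)
    refine hp.choose_spec (hag _ ?_)
    rw [Finset.mem_biUnion]
    refine ⟨(σ, τ), ?_, ?_⟩
    · rw [Finset.mem_product]
      exact ⟨(Set.Finite.mem_toFinset h).2 hσ, (Set.Finite.mem_toFinset h).2 hτ⟩
    · simp only [f]
      rw [dif_pos hp]
      exact Finset.mem_singleton_self _
  · rintro ⟨Λ, hΛ⟩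
    refine Set.Finite.of_finite_image (f := fun σ : V → Bool => fun v : Λ => σ v)
      (Set.toFinite _) ?_
    intro σ hσ τ hτ h
    exact hΛ σ τ hσ hτ fun v hv => congrFun h ⟨v, hv⟩

/-- **Measurability of properties of pairs of ground states** on the event that there are finitely
many. -/
theorem measurableSet_exists_pair [Countable V] [Countable E]
    {R : Set ((E → ℝ) × ((V → Bool) × (V → Bool)))} (hR : MeasurableSet R) :
    MeasurableSet {J | FinGS a b hlf J ∧ ∃ σ τ, WGS a b hlf J σ ∧ WGS a b hlf J τ ∧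
      (J, (σ, τ)) ∈ R} := by
  classical
  have h : {J | FinGS a b hlf J ∧ ∃ σ τ, WGS a b hlf J σ ∧ WGS a b hlf J τ ∧ (J, (σ, τ)) ∈ R}
      = ⋃ Λ : Finset V, ⋃ w : Λ → Bool, ⋃ w' : Λ → Bool,
        (Sep a b hlf Λ ∩ PW a b hlf Λ w ∩ PW a b hlf Λ w' ∩
          {J | (J, (sel a b hlf Λ w J, sel a b hlf Λ w' J)) ∈ R}) := by
    ext J
    simp only [mem_ofPred_eq, mem_iUnion, mem_inter_iff]
    constructor
    · rintro ⟨hfin, σ, τ, hσ, hτ, hR⟩
      obtain ⟨Λ, hΛ⟩ := (finGS_iff a b hlf J).1 hfin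
      refine ⟨Λ, fun v => σ v, fun v => τ v, ⟨⟨hΛ, σ, hσ, fun v => rfl⟩, τ, hτ, fun v => rfl⟩, ?_⟩
      rw [sel_eq a b hlf hΛ hσ fun v => rfl, sel_eq a b hlf hΛ hτ fun v => rfl]
      exact hR
    · rintro ⟨Λ, w, w', ⟨⟨hΛ, σ, hσ, hw⟩, τ, hτ, hw'⟩, hR⟩
      rw [sel_eq a b hlf hΛ hσ hw, sel_eq a b hlf hΛ hτ hw'] at hR
      exact ⟨(finGS_iff a b hlf J).2 ⟨Λ, hΛ⟩, σ, τ, hσ, hτ, hR⟩
  rw [h]
  refine MeasurableSet.iUnion fun Λ => MeasurableSet.iUnion fun w => MeasurableSet.iUnion fun w' =>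
    (((measurableSet_Sep a b hlf Λ).inter (isClosed_PW a b hlf Λ w).measurableSet).inter
      (isClosed_PW a b hlf Λ w').measurableSet).inter ?_
  have hm : Measurable fun J : E → ℝ => (J, (sel a b hlf Λ w J, sel a b hlf Λ w' J)) :=
    measurable_id.prodMk ((measurable_sel a b hlf Λ w).prodMk (measurable_sel a b hlf Λ w'))
  exact hm hR

lemma measurableSet_FinGS [Countable V] [Countable E] : MeasurableSet {J | FinGS a b hlf J} := by
  have : {J | FinGS a b hlf J} = ⋃ Λ : Finset V, Sep a b hlf Λ := by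
    ext J; simp [finGS_iff]
  rw [this]
  exact MeasurableSet.iUnion fun Λ => measurableSet_Sep a b hlf Λ

end Pool.Agent.Helper40.EA
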