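import Mathlib
import Pool.Agent.Helper40.EA.Meas
import Pool.Agent.Helper40.EA.Infl

set_option autoImplicit false
open MeasureTheory Set Function
open scoped ENNReal

namespace Pool.Agent.Helper40.EA

open Pool.Agent.Helper23.EA

section model

variable {V E : Type*} (a b : E → V) (hlf : ∀ v, {e | a e = v ∨ b e = v}.Finite)

/-- `σ` can be changed on a finite set, at cost at most `c` (up to an arbitrarily small error), so
as to coincide with `τ` or its global flip on any given finite set. -/
def Qb (J : E → ℝ) (σ τ : V → Bool) (c : ℝ) : Prop :=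
  ∀ (B : Finset V) (n : ℕ), ∃ D : Finset V,
    ((∀ v ∈ B, Helper23.EA.flip σ D v = τ v) ∨ (∀ v ∈ B, Helper23.EA.flip σ D v = !(τ v))) ∧
      En a b hlf J σ D ≤ c + 1 / ((n : ℝ) + 1)

/-- incongruence: some edge has different status -/
def Inc (σ τ : V → Bool) : Prop := ∃ e, status a b σ e ≠ status a b τ e

/-- pairs with a barrier at most `c` -/
def Rc (c : ℝ) : Set ((E → ℝ) × ((V → Bool) × (V → Bool))) :=
  {p | Inc a b p.2.1 p.2.2 ∧ Qb a b hlf p.1 p.2.1 p.2.2 c}

/-- couplings with finitely many ground states and an incongruent pair with barrier at most `c` -/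
def Ac (c : ℝ) : Set (E → ℝ) :=
  {J | FinGS a b hlf J ∧ ∃ σ τ, WGS a b hlf J σ ∧ WGS a b hlf J τ ∧ (J, (σ, τ)) ∈ Rc a b hlf c}

lemma flip_apply (σ : V → Bool) (D : Finset V) [DecidableEq V] (v : V) :
    Helper23.EA.flip σ D v = if v ∈ D then !(σ v) else σ v := by
  unfold Helper23.EA.flip
  by_cases h : v ∈ D <;> simp [h]

lemma measurable_flip (D : Finset V) (v : V) :
    Measurable fun σ : V → Bool => Helper23.EA.flip σ D v := by
  classical
  simp only [flip_apply]
  split_ifs
  · exact (measurable_of_countable (fun x : Bool => !x)).comp (measurable_pi_apply v)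
  · exact measurable_pi_apply v

lemma measurable_En [Countable V] [Countable E] (D : Finset V) :
    Measurable fun p : (E → ℝ) × (V → Bool) => En a b hlf p.1 p.2 D :=
  (continuous_En a b hlf D).measurable

lemma measurable_status (e : E) : Measurable fun σ : V → Bool => status a b σ e := by
  unfold status
  have h : Measurable fun σ : V → Bool => (σ (a e), σ (b e)) :=
    (measurable_pi_apply (a e)).prodMk (measurable_pi_apply (b e))
  exact (measurable_of_countable (fun q : Bool × Bool => (q.1 == q.2))).comp h

lemma measurableSet_Rc [Countable V] [Countable E] (c : ℝ) : MeasurableSet (Rc a b hlf c) := by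
  have hInc : MeasurableSet {p : (E → ℝ) × ((V → Bool) × (V → Bool)) | Inc a b p.2.1 p.2.2} := by
    have : {p : (E → ℝ) × ((V → Bool) × (V → Bool)) | Inc a b p.2.1 p.2.2}
        = ⋃ e : E, {p | status a b p.2.1 e = status a b p.2.2 e}ᶜ := by
      ext p; simp [Inc]
    rw [this]
    refine MeasurableSet.iUnion fun e => (measurableSet_eq_fun ?_ ?_).compl
    · exact (measurable_status a b e).comp (measurable_fst.comp measurable_snd)
    · exact (measurable_status a b e).comp (measurable_snd.comp measurable_snd)
  have hQ : MeasurableSet {p : (E → ℝ) × ((V → Bool) × (V → Bool)) |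
      Qb a b hlf p.1 p.2.1 p.2.2 c} := by
    have : {p : (E → ℝ) × ((V → Bool) × (V → Bool)) | Qb a b hlf p.1 p.2.1 p.2.2 c}
        = ⋂ B : Finset V, ⋂ n : ℕ, ⋃ D : Finset V,
          (((⋂ v ∈ B, {p : (E → ℝ) × ((V → Bool) × (V → Bool)) |
              Helper23.EA.flip p.2.1 D v = p.2.2 v}) ∪
            (⋂ v ∈ B, {p : (E → ℝ) × ((V → Bool) × (V → Bool)) |
              Helper23.EA.flip p.2.1 D v = !(p.2.2 v)})) ∩
          {p : (E → ℝ) × ((V → Bool) × (V → Bool)) |
              En a b hlf p.1 p.2.1 D ≤ c + 1 / ((n : ℝ) + 1)}) := by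
      ext p
      simp only [Qb, mem_ofPred_eq, mem_iInter, mem_iUnion, mem_inter_iff, mem_union]
    rw [this]
    refine MeasurableSet.iInter fun B => MeasurableSet.iInter fun n => MeasurableSet.iUnion fun D =>
      MeasurableSet.inter (MeasurableSet.union ?_ ?_) ?_
    · refine Finset.measurableSet_biInter _ fun v _ => measurableSet_eq_fun ?_ ?_
      · exact (measurable_flip D v).comp (measurable_fst.comp measurable_snd)
      · exact (measurable_pi_apply v).comp (measurable_snd.comp measurable_snd)
    · refine Finset.measurableSet_biInter _ fun v _ => measurableSet_eq_fun ?_ ?_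
      · exact (measurable_flip D v).comp (measurable_fst.comp measurable_snd)
      · exact (measurable_of_countable (fun x : Bool => !x)).comp
          ((measurable_pi_apply v).comp (measurable_snd.comp measurable_snd))
    · refine measurableSet_le ?_ measurable_const
      exact (measurable_En a b hlf D).comp
        (measurable_fst.prodMk (measurable_fst.comp measurable_snd))
  exact hInc.inter hQ

lemma measurableSet_Ac [Countable V] [Countable E] (c : ℝ) : MeasurableSet (Ac a b hlf c) :=
  measurableSet_exists_pair a b hlf (measurableSet_Rc a b hlf c)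

/-- couplings with finitely many ground states, one of which has status `s` at `e` and zero
flexibility at `e` -/
def Sz (e : E) (s : Bool) : Set (E → ℝ) :=
  {J | FinGS a b hlf J ∧ ∃ σ τ : V → Bool, WGS a b hlf J σ ∧ WGS a b hlf J τ ∧
    (J, (σ, τ)) ∈ {p : (E → ℝ) × ((V → Bool) × (V → Bool)) | status a b p.2.1 e = s ∧
      ∀ n : ℕ, ∃ D : Finset V, e ∈ bd a b hlf D ∧ En a b hlf p.1 p.2.1 D < 1 / ((n : ℝ) + 1)}}

lemma measurableSet_Sz [Countable V] [Countable E] (e : E) (s : Bool) :
    MeasurableSet (Sz a b hlf e s) := by
  classical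
  refine measurableSet_exists_pair a b hlf (MeasurableSet.inter ?_ ?_)
  · refine measurableSet_eq_fun ?_ measurable_const
    exact (measurable_status a b e).comp (measurable_fst.comp measurable_snd)
  · have : {p : (E → ℝ) × ((V → Bool) × (V → Bool)) |
        ∀ n : ℕ, ∃ D : Finset V, e ∈ bd a b hlf D ∧ En a b hlf p.1 p.2.1 D < 1 / ((n : ℝ) + 1)}
        = ⋂ n : ℕ, ⋃ D : Finset V, ({p | e ∈ bd a b hlf D} ∩
          {p | En a b hlf p.1 p.2.1 D < 1 / ((n : ℝ) + 1)}) := by
      ext p
      simp only [mem_ofPred_eq, mem_iInter, mem_iUnion, mem_inter_iff]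
    have h2 : MeasurableSet (⋂ n : ℕ, ⋃ D : Finset V,
        ({p : (E → ℝ) × ((V → Bool) × (V → Bool)) | e ∈ bd a b hlf D} ∩
          {p | En a b hlf p.1 p.2.1 D < 1 / ((n : ℝ) + 1)})) := by
      refine MeasurableSet.iInter fun n => MeasurableSet.iUnion fun D =>
        MeasurableSet.inter (MeasurableSet.const _) (measurableSet_lt ?_ measurable_const)
      exact (measurable_En a b hlf D).comp
        (measurable_fst.prodMk (measurable_fst.comp measurable_snd))
    rw [← this] at h2
    exact h2

/-- countability of sets all of whose initial segments are finite -/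
lemma countable_of_initial {T : Set ℝ} (r : ℝ → ℝ → Prop)
    (hr : ∀ x y, x ≠ y → r x y ∨ r y x) (htr : ∀ x y z, r x y → r y z → r x z)
    (hirr : ∀ x, ¬ r x x)
    (hfin : ∀ x ∈ T, {y | y ∈ T ∧ r y x}.Finite) : T.Countable := by
  classical
  have hinj : Function.Injective (fun x : T => (hfin x x.2).toFinset.card) := by
    intro x y hxy
    by_contra hne
    have hne' : (x : ℝ) ≠ y := fun h => hne (Subtype.ext h)
    have key : ∀ u v : T, r u v → (hfin u u.2).toFinset.card < (hfin v v.2).toFinset.card := by
      intro u v huv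
      refine Finset.card_lt_card ?_
      rw [Finset.ssubset_iff_of_subset]
      · refine ⟨u, ?_, ?_⟩
        · rw [Set.Finite.mem_toFinset]; exact ⟨u.2, huv⟩
        · rw [Set.Finite.mem_toFinset]; exact fun h => hirr _ h.2
      · intro w hw
        rw [Set.Finite.mem_toFinset] at hw ⊢
        exact ⟨hw.1, htr _ _ _ hw.2 huv⟩
    rcases hr x y hne' with h | h
    · exact absurd hxy (key x y h).ne
    · exact absurd hxy (key y x h).ne'
  exact hinj.countable

lemma Sz_section_countable [DecidableEq E] (e : E) (s : Bool) (J : E → ℝ) :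
    {x | Function.update J e x ∈ Sz a b hlf e s}.Countable := by
  classical
  set T := {x | Function.update J e x ∈ Sz a b hlf e s} with hT
  have hch : ∀ x : T, ∃ σ : V → Bool, WGS a b hlf (Function.update J e x) σ ∧
      status a b σ e = s ∧ ∀ n : ℕ, ∃ D : Finset V, e ∈ bd a b hlf D ∧
        En a b hlf (Function.update J e x) σ D < 1 / ((n : ℝ) + 1) := by
    rintro ⟨x, hx⟩
    obtain ⟨_, σ, τ, h1, _, h2, h3⟩ := hx
    exact ⟨σ, h1, h2, h3⟩
  choose f hf1 hf2 hf3 using hch
  refine countable_of_initial (fun x y => sp s * x < sp s * y) ?_ ?_ ?_ ?_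
  · intro x y hxy
    refine lt_or_gt_of_ne fun h => hxy ?_
    have := sp_eq_or s
    rcases this with h' | h' <;> rw [h'] at h <;> linarith
  · intro x y z h1 h2; exact h1.trans h2
  · intro x; exact lt_irrefl _
  · intro x hx
    -- energy comparison
    have hen : ∀ (y z : ℝ) (σ : V → Bool) (D : Finset V),
        status a b σ e = s → e ∈ bd a b hlf D →
        En a b hlf (Function.update J e z) σ D
          = En a b hlf (Function.update J e y) σ D + (sp s * z - sp s * y) := by
      intro y z σ D hs he
      have h1 : Function.update J e z = Function.update (Function.update J e y) e z := by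
        rw [Function.update_idem]
      rw [h1, En_update, if_pos he, Function.update_self, sp_mul_sp_eq, hs]
      ring
    have hfinx : FinGS a b hlf (Function.update J e x) := hx.1
    refine Set.Finite.of_finite_image (s := {y | y ∈ T ∧ sp s * y < sp s * x})
      (f := fun y => if hy : y ∈ T then f ⟨y, hy⟩ else fun _ => true) ?_ ?_
    · refine hfinx.subset ?_
      rintro _ ⟨y, ⟨hy, hlt⟩, rfl⟩
      simp only [dif_pos hy, mem_ofPred_eq]
      intro D
      have h0 := hf1 ⟨y, hy⟩ D
      by_cases he : e ∈ bd a b hlf D
      · rw [hen y x _ D (hf2 ⟨y, hy⟩) he]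
        have := hf1 ⟨y, hy⟩ D
        simp only at this
        linarith
      · have h1 : Function.update J e x = Function.update (Function.update J e y) e x := by
          rw [Function.update_idem]
        rw [h1, En_update, if_neg he, add_zero]
        exact h0
    · intro y hy z hz hyz
      simp only [dif_pos hy.1, dif_pos hz.1] at hyz
      by_contra hne
      have key : ∀ u v : T, f u = f v → sp s * (u : ℝ) < sp s * v → False := by
        intro u v huv hlt
        obtain ⟨n, hn⟩ := exists_nat_one_div_lt (sub_pos.2 hlt)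
        obtain ⟨D, hD, hE⟩ := hf3 v n
        have h1 := hen u v (f v) D (hf2 v) hD
        have h2 := hf1 u D
        rw [huv] at h2
        linarith
      rcases lt_trichotomy (sp s * y) (sp s * z) with h | h | h
      · exact key ⟨y, hy.1⟩ ⟨z, hz.1⟩ hyz h
      · refine hne ?_
        rcases sp_eq_or s with h' | h' <;> rw [h'] at h <;> linarith
      · exact key ⟨z, hz.1⟩ ⟨y, hy.1⟩ hyz.symm h

end model

end Pool.Agent.Helper40.EA
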