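import Mathlib
import Pool.Agent.Helper40.EA.Barrier

set_option autoImplicit false
open MeasureTheory Set Function
open scoped ENNReal

namespace Pool.Agent.Helper40.EA

open Pool.Agent.Helper23.EA

/-! ### One-sided neighbourhoods have positive mass -/

lemma null_left (μ : Measure ℝ) (hμ : ∀ x : ℝ, μ {x} = 0) (δ : ℝ) (hδ : 0 < δ) :
    μ {x | μ (Ioo (x - δ) x) = 0} = 0 := by
  set Z := {x : ℝ | μ (Ioo (x - δ) x) = 0} with hZ
  obtain ⟨T, hTc, hTU⟩ := TopologicalSpace.isOpen_iUnion_countable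
    (fun x : Z => Ioo ((x : ℝ) - δ) x) (fun x => isOpen_Ioo)
  have hU : μ (⋃ x : Z, Ioo ((x : ℝ) - δ) x) = 0 := by
    rw [← hTU]
    exact (measure_biUnion_null_iff hTc).2 fun x _ => x.2
  have hsub : Z ⊆ (⋃ x : Z, Ioo ((x : ℝ) - δ) x) ∪ (Z \ ⋃ x : Z, Ioo ((x : ℝ) - δ) x) := by
    intro x hx
    by_cases h : x ∈ ⋃ x : Z, Ioo ((x : ℝ) - δ) x
    · exact Or.inl h
    · exact Or.inr ⟨hx, h⟩
  have hcount : (Z \ ⋃ x : Z, Ioo ((x : ℝ) - δ) x).Countable := by
    have hsep : ∀ x ∈ Z \ ⋃ x : Z, Ioo ((x : ℝ) - δ) x, ∀ y ∈ Z \ ⋃ x : Z, Ioo ((x : ℝ) - δ) x,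
        x < y → x + δ ≤ y := by
      intro x hx y hy hxy
      by_contra h
      push Not at h
      refine hx.2 (mem_iUnion.2 ⟨⟨y, hy.1⟩, ?_, hxy⟩)
      show y - δ < x
      linarith
    -- map to the integers
    have hinj : InjOn (fun x : ℝ => ⌊x / δ⌋) (Z \ ⋃ x : Z, Ioo ((x : ℝ) - δ) x) := by
      intro x hx y hy hxy
      by_contra hne
      have key : ∀ u v : ℝ, u + δ ≤ v → ⌊u / δ⌋ < ⌊v / δ⌋ := by
        intro u v huv
        have h1 : u / δ + 1 ≤ v / δ := by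
          rw [← sub_nonneg]
          have : v / δ - (u / δ + 1) = (v - (u + δ)) / δ := by field_simp
          rw [this]
          exact div_nonneg (by linarith) hδ.le
        have h2 : ⌊u / δ + 1⌋ ≤ ⌊v / δ⌋ := Int.floor_le_floor h1
        rw [Int.floor_add_one] at h2
        omega
      simp only at hxy
      rcases lt_or_gt_of_ne hne with h | h
      · exact absurd hxy (key _ _ (hsep x hx y hy h)).ne
      · exact absurd hxy (key _ _ (hsep y hy x hx h)).ne'
    exact (mapsTo_univ (fun x : ℝ => ⌊x / δ⌋) _).countable_of_injOn hinj (Set.to_countable _)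
  refine measure_mono_null hsub ((measure_union_null hU ?_))
  have : NullSingletonClass μ := ⟨fun x => hμ x⟩
  exact hcount.measure_zero μ

lemma null_right (μ : Measure ℝ) (hμ : ∀ x : ℝ, μ {x} = 0) (δ : ℝ) (hδ : 0 < δ) :
    μ {x | μ (Ioo x (x + δ)) = 0} = 0 := by
  have h := null_left (μ.map (fun x => -x)) (fun x => by
    rw [Measure.map_apply measurable_neg (measurableSet_singleton x)]
    have : (fun x : ℝ => -x) ⁻¹' {x} = {-x} := by
      ext y; simp
    rw [this]; exact hμ _) δ hδ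
  have hset : ∀ x : ℝ, (μ.map (fun x => -x)) (Ioo (x - δ) x) = μ (Ioo (-x) (-x + δ)) := by
    intro x
    rw [Measure.map_apply measurable_neg measurableSet_Ioo]
    congr 1
    ext y
    simp only [mem_preimage, mem_Ioo]
    constructor <;> rintro ⟨h1, h2⟩ <;> constructor <;> linarith
  simp only [hset] at h
  have h2 : (μ.map (fun x => -x)) ((fun x : ℝ => -x) ⁻¹' {x | μ (Ioo x (x + δ)) = 0}) = 0 := h
  have h3 : μ ((fun x : ℝ => -x) ⁻¹' ((fun x : ℝ => -x) ⁻¹' {x | μ (Ioo x (x + δ)) = 0})) = 0 := by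
    refine le_antisymm ((Measure.le_map_apply measurable_neg.aemeasurable _).trans h2.le) bot_le
  have h4 : ((fun x : ℝ => -x) ⁻¹' ((fun x : ℝ => -x) ⁻¹' {x | μ (Ioo x (x + δ)) = 0}))
      = {x | μ (Ioo x (x + δ)) = 0} := by
    ext x; simp
  rwa [h4] at h3

/-- the one-sided neighbourhood of `x` in direction `-s` -/
def side (s x δ : ℝ) : Set ℝ := {y | 0 < s * (x - y) ∧ s * (x - y) < δ}

lemma side_pos (μ : Measure ℝ) (hμ : ∀ x : ℝ, μ {x} = 0) :
    ∀ᵐ x ∂μ, ∀ (b : Bool) (δ : ℝ), 0 < δ → 0 < μ (side (sp b) x δ) := by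
  have h : ∀ᵐ x ∂μ, ∀ n : ℕ, μ (Ioo (x - 1 / ((n : ℝ) + 1)) x) ≠ 0 ∧
      μ (Ioo x (x + 1 / ((n : ℝ) + 1))) ≠ 0 := by
    rw [ae_all_iff]
    intro n
    have h1 := null_left μ hμ (1 / ((n : ℝ) + 1)) Nat.one_div_pos_of_nat
    have h2 := null_right μ hμ (1 / ((n : ℝ) + 1)) Nat.one_div_pos_of_nat
    refine Filter.Eventually.and ?_ ?_
    · rw [ae_iff]; simpa using h1
    · rw [ae_iff]; simpa using h2
  filter_upwards [h] with x hx b δ hδ
  obtain ⟨n, hn⟩ := exists_nat_one_div_lt hδ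
  refine pos_iff_ne_zero.2 fun h0 => ?_
  cases b
  · refine (hx n).2 (measure_mono_null ?_ h0)
    intro y hy
    simp only [side, sp, mem_ofPred_eq]
    constructor
    · have := hy.1
      simp; linarith
    · have := hy.2
      simp; linarith
  · refine (hx n).1 (measure_mono_null ?_ h0)
    intro y hy
    simp only [side, sp, mem_ofPred_eq]
    constructor
    · have := hy.2
      simp; linarith
    · have := hy.1
      simp; linarith

section model

variable {V E : Type*} (a b : E → V) (hlf : ∀ v, {e | a e = v ∨ b e = v}.Finite)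

lemma Ac_mono {c c' : ℝ} (h : c ≤ c') : Ac a b hlf c ⊆ Ac a b hlf c' := by
  rintro J ⟨h1, σ, τ, h2, h3, h4, h5⟩
  refine ⟨h1, σ, τ, h2, h3, h4, fun B n => ?_⟩
  obtain ⟨D, hD, hE⟩ := h5 B n
  exact ⟨D, hD, hE.trans (by linarith)⟩

/-- the deterministic heart of the argument -/
theorem no_finite_barrier [DecidableEq E] (μ : Measure ℝ) (J : E → ℝ)
    (hfin : FinGS a b hlf J)
    (hflex : ∀ e s, J ∉ Sz a b hlf e s)
    (hA : ∀ e, ∀ᵐ x ∂μ, ∀ q : ℚ, (J ∈ Ac a b hlf q ↔ Function.update J e x ∈ Ac a b hlf q))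
    (hF : ∀ e, ∀ᵐ x ∂μ, (FinGS a b hlf J ↔ FinGS a b hlf (Function.update J e x)))
    (hside : ∀ e (s : Bool) (δ : ℝ), 0 < δ → 0 < μ (side (sp s) (J e) δ)) :
    ∀ σ τ, WGS a b hlf J σ → WGS a b hlf J τ → Inc a b σ τ → ∀ c, ¬ Qb a b hlf J σ τ c := by
  classical
  intro σ₀ τ₀ hσ₀ hτ₀ hinc₀ c₀ hQ₀
  -- the set of good pairs
  let PP : Set ((V → Bool) × (V → Bool)) :=
    {p | WGS a b hlf J p.1 ∧ WGS a b hlf J p.2 ∧ Inc a b p.1 p.2 ∧ ∃ c, Qb a b hlf J p.1 p.2 c}
  have hPP : PP.Finite := (hfin.prod hfin).subset fun p hp => ⟨hp.1, hp.2.1⟩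
  let α : (V → Bool) × (V → Bool) → ℝ := fun p => sInf {c | Qb a b hlf J p.1 p.2 c}
  obtain ⟨⟨σ, τ⟩, ⟨hσ, hτ, hinc, c1, hc1⟩, hmin⟩ :=
    Set.exists_min_image PP α hPP ⟨(σ₀, τ₀), hσ₀, hτ₀, hinc₀, c₀, hQ₀⟩
  -- lower bound and attainment
  have hnn : ∀ p ∈ PP, ∀ c, Qb a b hlf J p.1 p.2 c → 0 ≤ c := by
    intro p hp c hc
    by_contra hneg
    push Not at hneg
    obtain ⟨n, hn⟩ := exists_nat_one_div_lt (neg_pos.2 hneg)
    obtain ⟨D, -, hE⟩ := hc ∅ n
    have := hp.1 D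
    linarith
  have hbdd : ∀ p ∈ PP, BddBelow {c | Qb a b hlf J p.1 p.2 c} := fun p hp => ⟨0, hnn p hp⟩
  have hatt : Qb a b hlf J σ τ (α (σ, τ)) := by
    intro B n
    have hpos : (0:ℝ) < 1 / ((n:ℝ) + 1) := Nat.one_div_pos_of_nat
    obtain ⟨c, hc, hlt⟩ := exists_lt_of_csInf_lt (s := {c | Qb a b hlf J σ τ c}) ⟨c1, hc1⟩
      (show sInf {c | Qb a b hlf J σ τ c} < α (σ, τ) + (1 / ((n:ℝ) + 1)) / 2 by
        show _ < sInf {c | Qb a b hlf J σ τ c} + _
        linarith)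
    obtain ⟨m, hm⟩ := exists_nat_one_div_lt (half_pos hpos)
    obtain ⟨D, hD, hE⟩ := hc B m
    exact ⟨D, hD, by linarith⟩
  obtain ⟨e, he⟩ := hinc
  set s := status a b σ e with hs
  have hτs : sp (status a b τ e) = - sp s := by
    rw [← sp_not]
    congr 1
    revert he
    cases status a b τ e <;> cases s <;> simp
  -- flexibility
  have hfl : ∃ n : ℕ, ∀ D : Finset V, e ∈ bd a b hlf D → 1 / ((n : ℝ) + 1) ≤ En a b hlf J σ D := by
    by_contra hcon
    push Not at hcon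
    exact hflex e s ⟨hfin, σ, σ, hσ, hσ, hs.symm, hcon⟩
  obtain ⟨n, hn⟩ := hfl
  have hδ : (0:ℝ) < 1 / ((n : ℝ) + 1) := Nat.one_div_pos_of_nat
  -- pick a good value x
  have hae : ∀ᵐ x ∂μ, (∀ q : ℚ, (J ∈ Ac a b hlf q ↔ Function.update J e x ∈ Ac a b hlf q)) ∧
      (FinGS a b hlf J ↔ FinGS a b hlf (Function.update J e x)) := (hA e).and (hF e)
  have hx : ∃ x ∈ side (sp s) (J e) (1 / ((n : ℝ) + 1)),
      (∀ q : ℚ, (J ∈ Ac a b hlf q ↔ Function.update J e x ∈ Ac a b hlf q)) ∧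
      (FinGS a b hlf J ↔ FinGS a b hlf (Function.update J e x)) := by
    by_contra hcon
    have h0 := hside e s _ hδ
    rw [ae_iff] at hae
    refine h0.ne' (measure_mono_null ?_ hae)
    intro x hx hgood
    exact hcon ⟨x, hx, hgood⟩
  obtain ⟨x, ⟨hx0, hx1⟩, hxA, hxF⟩ := hx
  -- energies at the new couplings
  have hEσ : ∀ D : Finset V, e ∈ bd a b hlf D →
      En a b hlf (Function.update J e x) σ D = En a b hlf J σ D - sp s * (J e - x) := by
    intro D hD
    rw [En_update, if_pos hD, sp_mul_sp_eq, ← hs]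
    ring
  have hEn : ∀ (ρ : V → Bool) (D : Finset V), e ∉ bd a b hlf D →
      En a b hlf (Function.update J e x) ρ D = En a b hlf J ρ D := by
    intro ρ D hD
    rw [En_update, if_neg hD, add_zero]
  have hσ' : WGS a b hlf (Function.update J e x) σ := by
    intro D
    by_cases hD : e ∈ bd a b hlf D
    · rw [hEσ D hD]; have := hn D hD; linarith
    · rw [hEn σ D hD]; exact hσ D
  have hτ' : WGS a b hlf (Function.update J e x) τ := by
    intro D
    by_cases hD : e ∈ bd a b hlf D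
    · rw [En_update, if_pos hD, sp_mul_sp_eq, hτs]
      have := hτ D
      have h2 : (x - J e) * -sp s = sp s * (J e - x) := by ring
      rw [h2]; linarith
    · rw [hEn τ D hD]; exact hτ D
  -- the new barrier
  have hQ' : Qb a b hlf (Function.update J e x) σ τ (α (σ, τ) - sp s * (J e - x)) := by
    intro B m
    obtain ⟨D, hD, hE⟩ := hatt (B ∪ {a e, b e}) m
    refine ⟨D, ?_, ?_⟩
    · rcases hD with h | h
      · exact Or.inl fun v hv => h v (Finset.mem_union_left _ hv)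
      · exact Or.inr fun v hv => h v (Finset.mem_union_left _ hv)
    · have hae' : a e ∈ B ∪ {a e, b e} := by simp
      have hbe' : b e ∈ B ∪ {a e, b e} := by simp
      have heD : e ∈ bd a b hlf D := by
        by_contra hnot
        have h1 := sp_flip_not_bd a b hlf σ D e hnot
        rw [sp_mul_sp_eq, sp_mul_sp_eq] at h1
        have h2 : status a b (Helper23.EA.flip σ D) e = status a b τ e := by
          unfold status
          rcases hD with h | h
          · rw [h _ hae', h _ hbe']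
          · rw [h _ hae', h _ hbe']
            cases τ (a e) <;> cases τ (b e) <;> rfl
        rw [h2] at h1
        exact he (sp_injective h1).symm
      rw [hEσ D heD]
      linarith
  have hJ'fin : FinGS a b hlf (Function.update J e x) := hxF.1 hfin
  obtain ⟨q, hq1, hq2⟩ := exists_rat_btwn (show α (σ, τ) - sp s * (J e - x) < α (σ, τ) by linarith)
  have hmem : Function.update J e x ∈ Ac a b hlf q :=
    Ac_mono a b hlf hq1.le ⟨hJ'fin, σ, τ, hσ', hτ', ⟨e, he⟩, hQ'⟩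
  obtain ⟨-, σ₁, τ₁, h1, h2, h3, h4⟩ := (hxA q).2 hmem
  have hp : (σ₁, τ₁) ∈ PP := ⟨h1, h2, h3, q, h4⟩
  have h5 : α (σ₁, τ₁) ≤ q := csInf_le (hbdd _ hp) h4
  have h6 := hmin _ hp
  linarith

end model

end Pool.Agent.Helper40.EA
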