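import Mathlib
import Pool.Agent.Helper40.EA.Main

set_option autoImplicit false
open MeasureTheory Set Function
open scoped ENNReal

namespace Pool.Agent.Helper40.EA

open Pool.Agent.Helper23.EA

section sym

variable {V E : Type*} (a b : E → V) (hlf : ∀ v, {e | a e = v ∨ b e = v}.Finite)

/-- a symmetry of the edge structure -/
structure Sym2' where
  gV : V ≃ V
  gE : E ≃ E
  ha : ∀ e, a (gE e) = gV (a e)
  hb : ∀ e, b (gE e) = gV (b e)

variable {a b}

lemma bd_map (g : Sym2' a b) (A : Finset V) (e : E) :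
    g.gE e ∈ bd a b hlf (A.map g.gV.toEmbedding) ↔ e ∈ bd a b hlf A := by
  simp only [mem_bd, g.ha, g.hb, Finset.mem_map_equiv, Equiv.symm_apply_apply]

lemma En_map (g : Sym2' a b) (J : E → ℝ) (σ : V → Bool) (A : Finset V) :
    En a b hlf (J ∘ g.gE) (σ ∘ g.gV) A = En a b hlf J σ (A.map g.gV.toEmbedding) := by
  classical
  unfold En
  refine Finset.sum_bij (fun e _ => g.gE e) ?_ ?_ ?_ ?_
  · intro e he; exact (bd_map hlf g A e).2 he
  · intro e _ e' _ h; exact g.gE.injective h
  · intro e he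
    obtain ⟨e', rfl⟩ := g.gE.surjective e
    exact ⟨e', (bd_map hlf g A e').1 he, rfl⟩
  · intro e _
    simp only [comp_apply, g.ha, g.hb]

lemma WGS_map (g : Sym2' a b) (J : E → ℝ) (σ : V → Bool) :
    WGS a b hlf (J ∘ g.gE) (σ ∘ g.gV) ↔ WGS a b hlf J σ := by
  constructor
  · intro h A
    have := h (A.map g.gV.symm.toEmbedding)
    rw [En_map hlf] at this
    have h2 : (A.map g.gV.symm.toEmbedding).map g.gV.toEmbedding = A := by
      ext v; simp
    rwa [h2] at this
  · intro h A
    rw [En_map hlf]; exact h _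

/-- relabelling configurations -/
def relab (g : Sym2' a b) : (V → Bool) ≃ (V → Bool) := Equiv.arrowCongr g.gV.symm (Equiv.refl Bool)

lemma relab_apply (g : Sym2' a b) (σ : V → Bool) : relab g σ = σ ∘ g.gV := by
  funext v; rfl

lemma FinGS_map (g : Sym2' a b) (J : E → ℝ) :
    FinGS a b hlf (J ∘ g.gE) ↔ FinGS a b hlf J := by
  have h : {σ : V → Bool | WGS a b hlf J σ} = relab g ⁻¹' {σ | WGS a b hlf (J ∘ g.gE) σ} := by
    ext σ
    simp only [mem_preimage, mem_ofPred_eq, relab_apply, WGS_map hlf]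
  unfold FinGS
  rw [h]
  constructor
  · intro h1; exact h1.preimage (relab g).injective.injOn
  · intro h1
    have := h1.image (relab g)
    rwa [Equiv.image_preimage] at this

lemma Inc_map (g : Sym2' a b) (σ τ : V → Bool) :
    Inc a b (σ ∘ g.gV) (τ ∘ g.gV) ↔ Inc a b σ τ := by
  unfold Inc
  have key : ∀ e, (status a b (σ ∘ g.gV) e ≠ status a b (τ ∘ g.gV) e) ↔
      (status a b σ (g.gE e) ≠ status a b τ (g.gE e)) := by
    intro e; simp only [status, comp_apply, g.ha, g.hb]
  constructor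
  · rintro ⟨e, he⟩; exact ⟨g.gE e, (key e).1 he⟩
  · rintro ⟨e, he⟩
    refine ⟨g.gE.symm e, (key _).2 ?_⟩
    rwa [Equiv.apply_symm_apply]

lemma flip_map (g : Sym2' a b) (σ : V → Bool) (D : Finset V) (v : V) :
    Helper23.EA.flip (σ ∘ g.gV) D v = Helper23.EA.flip σ (D.map g.gV.toEmbedding) (g.gV v) := by
  classical
  rw [flip_apply, flip_apply]
  simp only [Finset.mem_map_equiv, Equiv.symm_apply_apply, comp_apply]

lemma Qb_map (g : Sym2' a b) (J : E → ℝ) (σ τ : V → Bool) (c : ℝ) :
    Qb a b hlf (J ∘ g.gE) (σ ∘ g.gV) (τ ∘ g.gV) c ↔ Qb a b hlf J σ τ c := by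
  constructor
  · intro h B n
    obtain ⟨D, hD, hE⟩ := h (B.map g.gV.symm.toEmbedding) n
    refine ⟨D.map g.gV.toEmbedding, ?_, by rwa [En_map hlf] at hE⟩
    have key : ∀ v ∈ B, g.gV.symm v ∈ B.map g.gV.symm.toEmbedding := by
      intro v hv; simpa using hv
    rcases hD with h | h
    · refine Or.inl fun v hv => ?_
      have := h _ (key v hv)
      rw [flip_map] at this
      simpa using this
    · refine Or.inr fun v hv => ?_
      have := h _ (key v hv)
      rw [flip_map] at this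
      simpa using this
  · intro h B n
    obtain ⟨D, hD, hE⟩ := h (B.map g.gV.toEmbedding) n
    refine ⟨D.map g.gV.symm.toEmbedding, ?_, ?_⟩
    · have h2 : (D.map g.gV.symm.toEmbedding).map g.gV.toEmbedding = D := by
        ext v; simp
      rcases hD with h | h
      · refine Or.inl fun v hv => ?_
        rw [flip_map, h2]
        exact h _ (by simpa using hv)
      · refine Or.inr fun v hv => ?_
        rw [flip_map, h2]
        exact h _ (by simpa using hv)
    · rw [En_map hlf]
      have h2 : (D.map g.gV.symm.toEmbedding).map g.gV.toEmbedding = D := by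
        ext v; simp
      rwa [h2]

lemma Ac_map (g : Sym2' a b) (J : E → ℝ) (c : ℝ) :
    J ∘ g.gE ∈ Ac a b hlf c ↔ J ∈ Ac a b hlf c := by
  constructor
  · rintro ⟨h1, σ, τ, h2, h3, h4, h5⟩
    refine ⟨(FinGS_map hlf g J).1 h1, (relab g).symm σ, (relab g).symm τ, ?_, ?_, ?_, ?_⟩
    · rw [← WGS_map hlf g, ← relab_apply, Equiv.apply_symm_apply]; exact h2
    · rw [← WGS_map hlf g, ← relab_apply, Equiv.apply_symm_apply]; exact h3
    · show Inc a b _ _
      rw [← Inc_map g, ← relab_apply, ← relab_apply, Equiv.apply_symm_apply,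
        Equiv.apply_symm_apply]; exact h4
    · show Qb a b hlf _ _ _ _
      rw [← Qb_map hlf g, ← relab_apply, ← relab_apply, Equiv.apply_symm_apply,
        Equiv.apply_symm_apply]; exact h5
  · rintro ⟨h1, σ, τ, h2, h3, h4, h5⟩
    exact ⟨(FinGS_map hlf g J).2 h1, σ ∘ g.gV, τ ∘ g.gV, (WGS_map hlf g J σ).2 h2,
      (WGS_map hlf g J τ).2 h3, (Inc_map g σ τ).2 h4, (Qb_map hlf g J σ τ c).2 h5⟩

/-- **No finite barrier between incongruent ground states when there are finitely many**, for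
i.i.d. atomless couplings on any countable graph with enough symmetries. -/
theorem ae_no_finite_barrier [Countable V] [Countable E] (μ : Measure ℝ) [IsProbabilityMeasure μ]
    (hμ : ∀ x : ℝ, μ {x} = 0)
    (hsym : ∀ (e : E) (F : Finset E), ∃ g : Sym2' a b, g.gE e ∉ F) :
    ∀ᵐ J ∂(Measure.infinitePi fun _ : E => μ), FinGS a b hlf J →
      ∀ σ τ, WGS a b hlf J σ → WGS a b hlf J τ → Inc a b σ τ → ∀ c, ¬ Qb a b hlf J σ τ c := by
  classical
  have h1 : ∀ᵐ J ∂(Measure.infinitePi fun _ : E => μ), ∀ (e : E) (s : Bool),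
      J ∉ Sz a b hlf e s := by
    rw [ae_all_iff]; intro e
    rw [ae_all_iff]; intro s
    rw [ae_iff]
    have : {J | ¬ J ∉ Sz a b hlf e s} = Sz a b hlf e s := by ext J; simp
    rw [this]
    refine infinitePi_null_of_section (fun _ : E => μ) e (measurableSet_Sz a b hlf e s)
      (Filter.Eventually.of_forall fun J => ?_)
    have : NullSingletonClass μ := ⟨fun x => hμ x⟩
    exact (Sz_section_countable a b hlf e s J).measure_zero μ
  have h2 : ∀ᵐ J ∂(Measure.infinitePi fun _ : E => μ), ∀ (e : E) (q : ℚ), ∀ᵐ x ∂μ,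
      (J ∈ Ac a b hlf q ↔ Function.update J e x ∈ Ac a b hlf q) := by
    rw [ae_all_iff]; intro e
    rw [ae_all_iff]; intro q
    refine influence μ (measurableSet_Ac a b hlf q) e fun F => ?_
    obtain ⟨g, hg⟩ := hsym e F
    exact ⟨g.gE, hg, fun J => Ac_map hlf g J q⟩
  have h3 : ∀ᵐ J ∂(Measure.infinitePi fun _ : E => μ), ∀ (e : E), ∀ᵐ x ∂μ,
      (FinGS a b hlf J ↔ FinGS a b hlf (Function.update J e x)) := by
    rw [ae_all_iff]; intro e
    refine influence μ (A := {J | FinGS a b hlf J}) (measurableSet_FinGS a b hlf) e fun F => ?_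
    obtain ⟨g, hg⟩ := hsym e F
    exact ⟨g.gE, hg, fun J => FinGS_map hlf g J⟩
  have h4 : ∀ᵐ J ∂(Measure.infinitePi fun _ : E => μ), ∀ (e : E) (s : Bool) (δ : ℝ), 0 < δ →
      0 < μ (side (sp s) (J e) δ) := by
    rw [ae_all_iff]; intro e
    exact (measurePreserving_eval_infinitePi (fun _ : E => μ) e).quasiMeasurePreserving.ae
      (side_pos μ hμ)
  filter_upwards [h1, h2, h3, h4] with J g1 g2 g3 g4 hfin
  refine no_finite_barrier a b hlf μ J hfin g1 (fun e => ?_) g3 g4
  rw [ae_all_iff]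
  exact g2 e

end sym

end Pool.Agent.Helper40.EA
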