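import Mathlib
import Pool.Agent.Helper40.EA.Lattice
import Pool.Agent.Helper42.EA.GraphAut

set_option autoImplicit false
open MeasureTheory Set Function
open scoped ENNReal

namespace Pool.Agent.Helper40.EA

open Pool.Agent.Helper23.EA

section rel

variable {V E : Type*} (a b : E → V) (hlf : ∀ v, {e | a e = v ∨ b e = v}.Finite)

/-- incongruent pairs with a finite value of `F`, smaller than `q` -/
def Rq (F : (E → ℝ) × ((V → Bool) × (V → Bool)) → EReal) (q : ℝ) :
    Set ((E → ℝ) × ((V → Bool) × (V → Bool))) :=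
  {p | Inc a b p.2.1 p.2.2 ∧ F p ≠ ⊥ ∧ F p < (q : EReal)}

/-- couplings with finitely many ground states and an incongruent pair with a finite value of `F`,
smaller than `q` -/
def Aq (F : (E → ℝ) × ((V → Bool) × (V → Bool)) → EReal) (q : ℝ) : Set (E → ℝ) :=
  {J | FinGS a b hlf J ∧ ∃ σ τ, WGS a b hlf J σ ∧ WGS a b hlf J τ ∧ (J, (σ, τ)) ∈ Rq a b F q}

lemma measurableSet_Inc [Countable E] :
    MeasurableSet {p : (E → ℝ) × ((V → Bool) × (V → Bool)) | Inc a b p.2.1 p.2.2} := by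
  have : {p : (E → ℝ) × ((V → Bool) × (V → Bool)) | Inc a b p.2.1 p.2.2}
      = ⋃ e : E, {p | status a b p.2.1 e = status a b p.2.2 e}ᶜ := by
    ext p; simp [Inc]
  rw [this]
  refine MeasurableSet.iUnion fun e => (measurableSet_eq_fun ?_ ?_).compl
  · exact (measurable_status a b e).comp (measurable_fst.comp measurable_snd)
  · exact (measurable_status a b e).comp (measurable_snd.comp measurable_snd)

lemma measurableSet_Rq [Countable E]
    {F : (E → ℝ) × ((V → Bool) × (V → Bool)) → EReal} (hF : Measurable F) (q : ℝ) :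
    MeasurableSet (Rq a b F q) := by
  refine (measurableSet_Inc a b).inter (MeasurableSet.inter ?_ ?_)
  · exact (hF (measurableSet_singleton ⊥)).compl
  · exact measurableSet_lt hF measurable_const

lemma measurableSet_Aq [Countable V] [Countable E]
    {F : (E → ℝ) × ((V → Bool) × (V → Bool)) → EReal} (hF : Measurable F) (q : ℝ) :
    MeasurableSet (Aq a b hlf F q) :=
  measurableSet_exists_pair a b hlf (measurableSet_Rq a b hF q)

/-- the deterministic heart of the argument -/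
theorem no_rel [DecidableEq E] (μ : Measure ℝ) (J : E → ℝ)
    (F : (E → ℝ) × ((V → Bool) × (V → Bool)) → EReal) (κ : ℝ) (hκ : 0 < κ)
    (P : (E → ℝ) → Prop) (hPJ : P J) (hP : ∀ e, ∀ᵐ x ∂μ, P (Function.update J e x))
    (hlaw : ∀ (J : E → ℝ) (e : E) (x : ℝ) (σ τ : V → Bool), P J → P (Function.update J e x) →
      WGS a b hlf J σ → WGS a b hlf J τ →
      WGS a b hlf (Function.update J e x) σ → WGS a b hlf (Function.update J e x) τ →
      status a b σ e ≠ status a b τ e →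
      F (Function.update J e x, (σ, τ)) =
        F (J, (σ, τ)) + ((κ * (x - J e) * sp (status a b σ e) : ℝ) : EReal))
    (hfin : FinGS a b hlf J)
    (hflex : ∀ e s, J ∉ Sz a b hlf e s)
    (hA : ∀ e, ∀ᵐ x ∂μ, ∀ q : ℚ, (J ∈ Aq a b hlf F q ↔ Function.update J e x ∈ Aq a b hlf F q))
    (hF : ∀ e, ∀ᵐ x ∂μ, (FinGS a b hlf J ↔ FinGS a b hlf (Function.update J e x)))
    (hside : ∀ e (s : Bool) (δ : ℝ), 0 < δ → 0 < μ (side (sp s) (J e) δ)) :
    ∀ σ τ, WGS a b hlf J σ → WGS a b hlf J τ → Inc a b σ τ →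
      F (J, (σ, τ)) = ⊤ ∨ F (J, (σ, τ)) = ⊥ := by
  classical
  intro σ₀ τ₀ hσ₀ hτ₀ hinc₀
  by_contra hcon₀
  push Not at hcon₀
  obtain ⟨hnt₀, hnb₀⟩ := hcon₀
  -- the set of pairs with finite values
  let PP : Set ((V → Bool) × (V → Bool)) :=
    {p | WGS a b hlf J p.1 ∧ WGS a b hlf J p.2 ∧ Inc a b p.1 p.2 ∧ F (J, p) ≠ ⊤ ∧ F (J, p) ≠ ⊥}
  have hPP : PP.Finite := (hfin.prod hfin).subset fun p hp => ⟨hp.1, hp.2.1⟩
  let α : (V → Bool) × (V → Bool) → ℝ := fun p => (F (J, p)).toReal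
  obtain ⟨⟨σ, τ⟩, ⟨hσ, hτ, hinc, hnt, hnb⟩, hmin⟩ :=
    Set.exists_min_image PP α hPP ⟨(σ₀, τ₀), hσ₀, hτ₀, hinc₀, hnt₀, hnb₀⟩
  obtain ⟨e, he⟩ := hinc
  set s := status a b σ e with hs
  have hτs : sp (status a b τ e) = - sp s := by
    rw [← sp_not]
    congr 1
    revert he
    cases status a b τ e <;> cases s <;> simp
  -- flexibility
  have hfl : ∃ n : ℕ, ∀ D : Finset V, e ∈ bd a b hlf D → 1 / ((n : ℝ) + 1) ≤ En a b hlf J σ D := by
    by_contra hcon
    push Not at hcon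
    exact hflex e s ⟨hfin, σ, σ, hσ, hσ, hs.symm, hcon⟩
  obtain ⟨n, hn⟩ := hfl
  have hδ : (0:ℝ) < 1 / ((n : ℝ) + 1) := Nat.one_div_pos_of_nat
  -- pick a good value x
  have hae : ∀ᵐ x ∂μ, (∀ q : ℚ, (J ∈ Aq a b hlf F q ↔ Function.update J e x ∈ Aq a b hlf F q)) ∧
      (FinGS a b hlf J ↔ FinGS a b hlf (Function.update J e x)) ∧ P (Function.update J e x) :=
    (hA e).and ((hF e).and (hP e))
  have hx : ∃ x ∈ side (sp s) (J e) (1 / ((n : ℝ) + 1)),
      (∀ q : ℚ, (J ∈ Aq a b hlf F q ↔ Function.update J e x ∈ Aq a b hlf F q)) ∧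
      (FinGS a b hlf J ↔ FinGS a b hlf (Function.update J e x)) ∧
        P (Function.update J e x) := by
    by_contra hcon
    have h0 := hside e s _ hδ
    rw [ae_iff] at hae
    refine h0.ne' (measure_mono_null ?_ hae)
    intro x hx hgood
    exact hcon ⟨x, hx, hgood⟩
  obtain ⟨x, ⟨hx0, hx1⟩, hxA, hxF, hxP⟩ := hx
  have hEσ : ∀ D : Finset V, e ∈ bd a b hlf D →
      En a b hlf (Function.update J e x) σ D = En a b hlf J σ D - sp s * (J e - x) := by
    intro D hD
    rw [En_update, if_pos hD, sp_mul_sp_eq, ← hs]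
    ring
  have hEn : ∀ (ρ : V → Bool) (D : Finset V), e ∉ bd a b hlf D →
      En a b hlf (Function.update J e x) ρ D = En a b hlf J ρ D := by
    intro ρ D hD
    rw [En_update, if_neg hD, add_zero]
  have hσ' : WGS a b hlf (Function.update J e x) σ := by
    intro D
    by_cases hD : e ∈ bd a b hlf D
    · rw [hEσ D hD]; have := hn D hD; linarith
    · rw [hEn σ D hD]; exact hσ D
  have hτ' : WGS a b hlf (Function.update J e x) τ := by
    intro D
    by_cases hD : e ∈ bd a b hlf D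
    · rw [En_update, if_pos hD, sp_mul_sp_eq, hτs]
      have := hτ D
      have h2 : (x - J e) * -sp s = sp s * (J e - x) := by ring
      rw [h2]; linarith
    · rw [hEn τ D hD]; exact hτ D
  -- the new value
  have hnew := hlaw J e x σ τ hPJ hxP hσ hτ hσ' hτ' he
  rw [← hs] at hnew
  obtain ⟨v, hv⟩ : ∃ v : ℝ, F (J, (σ, τ)) = (v : EReal) :=
    ⟨(F (J, (σ, τ))).toReal, (EReal.coe_toReal hnt hnb).symm⟩
  have hαv : α (σ, τ) = v := by
    show (F (J, (σ, τ))).toReal = v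
    rw [hv, EReal.toReal_coe]
  rw [hv, ← EReal.coe_add] at hnew
  have hlt : v + κ * (x - J e) * sp s < v := by
    have : κ * (x - J e) * sp s = - (κ * (sp s * (J e - x))) := by ring
    rw [this]
    have := mul_pos hκ hx0
    linarith
  have hJ'fin : FinGS a b hlf (Function.update J e x) := hxF.1 hfin
  obtain ⟨q, hq1, hq2⟩ := exists_rat_btwn hlt
  have hmem : Function.update J e x ∈ Aq a b hlf F q := by
    refine ⟨hJ'fin, σ, τ, hσ', hτ', ⟨e, he⟩, ?_, ?_⟩
    · rw [hnew]; exact EReal.coe_ne_bot _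
    · rw [hnew]; exact_mod_cast hq1
  obtain ⟨-, σ₁, τ₁, h1, h2, h3, h4, h5⟩ := (hxA q).2 hmem
  have hp : (σ₁, τ₁) ∈ PP := ⟨h1, h2, h3, ne_top_of_lt h5, h4⟩
  have h6 := hmin _ hp
  have h7 : α (σ₁, τ₁) < q := by
    show (F (J, (σ₁, τ₁))).toReal < q
    have h8 : ((F (J, (σ₁, τ₁))).toReal : EReal) < ((q : ℝ) : EReal) := by
      rw [EReal.coe_toReal (ne_top_of_lt h5) h4]; exact h5
    exact_mod_cast h8
  rw [hαv] at h6
  linarith

variable {a b}

open Pool.Agent.Helper42.EA (IsAut)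

lemma FinGS_aut {f : V ≃ V} {g : E ≃ E} (h : IsAut a b f g) (J : E → ℝ) :
    FinGS a b hlf (fun e => J (g e)) ↔ FinGS a b hlf J :=
  h.finWG (hlf := hlf) J

lemma Inc_aut {f : V ≃ V} {g : E ≃ E} (h : IsAut a b f g) (σ τ : V → Bool) :
    Inc a b (fun v => σ (f v)) (fun v => τ (f v)) ↔ Inc a b σ τ := by
  unfold Inc
  constructor
  · rintro ⟨e, he⟩
    rw [h.status, h.status] at he
    exact ⟨g e, he⟩
  · rintro ⟨e, he⟩
    refine ⟨g.symm e, ?_⟩
    rw [h.status, h.status, Equiv.apply_symm_apply]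
    exact he

lemma Aq_aut {f : V ≃ V} {g : E ≃ E} (h : IsAut a b f g)
    {F : (E → ℝ) × ((V → Bool) × (V → Bool)) → EReal}
    (hcov : ∀ (J : E → ℝ) (σ τ : V → Bool),
      F (fun e => J (g e), (fun v => σ (f v), fun v => τ (f v))) = F (J, (σ, τ)))
    (J : E → ℝ) (q : ℝ) :
    (fun e => J (g e)) ∈ Aq a b hlf F q ↔ J ∈ Aq a b hlf F q := by
  constructor
  · rintro ⟨h1, σ, τ, h2, h3, h4, h5, h6⟩
    have eσ : σ = fun v => (fun w => σ (f.symm w)) (f v) := by simp
    have eτ : τ = fun v => (fun w => τ (f.symm w)) (f v) := by simp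
    rw [eσ] at h2 h4 h5 h6
    rw [eτ] at h3 h4 h5 h6
    refine ⟨(FinGS_aut hlf h J).1 h1, fun w => σ (f.symm w), fun w => τ (f.symm w),
      (h.WGS J _).1 h2, (h.WGS J _).1 h3, (Inc_aut h _ _).1 h4, ?_, ?_⟩
    · rw [← hcov]; exact h5
    · rw [← hcov]; exact h6
  · rintro ⟨h1, σ, τ, h2, h3, h4, h5, h6⟩
    refine ⟨(FinGS_aut hlf h J).2 h1, fun v => σ (f v), fun v => τ (f v), (h.WGS J _).2 h2,
      (h.WGS J _).2 h3, (Inc_aut h _ _).2 h4, ?_, ?_⟩
    · rw [hcov]; exact h5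
    · rw [hcov]; exact h6

lemma ae_update [DecidableEq E] (μ : Measure ℝ) [IsProbabilityMeasure μ] (e : E)
    {p : (E → ℝ) → Prop} (hp : ∀ᵐ J ∂(Measure.infinitePi fun _ : E => μ), p J) :
    ∀ᵐ J ∂(Measure.infinitePi fun _ : E => μ), ∀ᵐ x ∂μ, p (Function.update J e x) := by
  have hmeas : Measurable (fun p : ℝ × (E → ℝ) => Function.update p.2 e p.1) := by
    refine measurable_pi_iff.2 fun i => ?_
    by_cases h : i = e
    · subst h; simpa using measurable_fst
    · simp only [Function.update_of_ne h]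
      exact (measurable_pi_apply i).comp measurable_snd
  have hqmp : MeasurePreserving (fun q : ℝ × (E → ℝ) => Function.update q.2 e q.1)
      (μ.prod (Measure.infinitePi fun _ : E => μ))
      (Measure.infinitePi fun _ : E => μ) := ⟨hmeas, map_update_prod (fun _ : E => μ) e⟩
  have h1 := (hqmp.comp (Measure.measurePreserving_swap)).quasiMeasurePreserving.ae hp
  exact Measure.ae_ae_of_ae_prod h1

/-- **No finite relative energies** (positive constant). -/
theorem ae_no_rel_pos [DecidableEq E] [Countable V] [Countable E] (μ : Measure ℝ)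
    [IsProbabilityMeasure μ]
    (hμ : ∀ x : ℝ, μ {x} = 0)
    (Sy : (V ≃ V) → (E ≃ E) → Prop) (hSy : ∀ f g, Sy f g → IsAut a b f g)
    (hmove : ∀ (F : Finset E), ∃ f : V ≃ V, ∃ g : E ≃ E, Sy f g ∧ ∀ e ∈ F, g e ∉ F)
    (F : (E → ℝ) × ((V → Bool) × (V → Bool)) → EReal) (hFm : Measurable F)
    (hcov : ∀ (f : V ≃ V) (g : E ≃ E), Sy f g → ∀ (J : E → ℝ) (σ τ : V → Bool),
      F (fun e => J (g e), (fun v => σ (f v), fun v => τ (f v))) = F (J, (σ, τ)))
    (κ : ℝ) (hκ : 0 < κ)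
    (P : (E → ℝ) → Prop) (hP : ∀ᵐ J ∂(Measure.infinitePi fun _ : E => μ), P J)
    (hlaw : ∀ (J : E → ℝ) (e : E) (x : ℝ) (σ τ : V → Bool), P J → P (Function.update J e x) →
      WGS a b hlf J σ → WGS a b hlf J τ →
      WGS a b hlf (Function.update J e x) σ → WGS a b hlf (Function.update J e x) τ →
      status a b σ e ≠ status a b τ e →
      F (Function.update J e x, (σ, τ)) =
        F (J, (σ, τ)) + ((κ * (x - J e) * sp (status a b σ e) : ℝ) : EReal)) :
    ∀ᵐ J ∂(Measure.infinitePi fun _ : E => μ), FinGS a b hlf J →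
      ∀ σ τ, WGS a b hlf J σ → WGS a b hlf J τ → Inc a b σ τ →
        F (J, (σ, τ)) = ⊤ ∨ F (J, (σ, τ)) = ⊥ := by
  classical
  have hmove' : ∀ (e : E) (S : Finset E), ∃ f : V ≃ V, ∃ g : E ≃ E, Sy f g ∧ g e ∉ S := by
    intro e S
    obtain ⟨f, g, h1, h2⟩ := hmove (insert e S)
    exact ⟨f, g, h1, fun h => h2 e (Finset.mem_insert_self _ _) (Finset.mem_insert_of_mem h)⟩
  have h1 : ∀ᵐ J ∂(Measure.infinitePi fun _ : E => μ), ∀ (e : E) (s : Bool),
      J ∉ Sz a b hlf e s := by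
    rw [ae_all_iff]; intro e
    rw [ae_all_iff]; intro s
    rw [ae_iff]
    have : {J | ¬ J ∉ Sz a b hlf e s} = Sz a b hlf e s := by ext J; simp
    rw [this]
    refine infinitePi_null_of_section (fun _ : E => μ) e (measurableSet_Sz a b hlf e s)
      (Filter.Eventually.of_forall fun J => ?_)
    have : NullSingletonClass μ := ⟨fun x => hμ x⟩
    exact (Sz_section_countable a b hlf e s J).measure_zero μ
  have h2 : ∀ᵐ J ∂(Measure.infinitePi fun _ : E => μ), ∀ (e : E) (q : ℚ), ∀ᵐ x ∂μ,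
      (J ∈ Aq a b hlf F q ↔ Function.update J e x ∈ Aq a b hlf F q) := by
    rw [ae_all_iff]; intro e
    rw [ae_all_iff]; intro q
    refine influence μ (measurableSet_Aq a b hlf hFm q) e fun S => ?_
    obtain ⟨f, g, hfg, hg⟩ := hmove' e S
    exact ⟨g, hg, fun J => Aq_aut hlf (hSy f g hfg) (hcov f g hfg) J q⟩
  have h3 : ∀ᵐ J ∂(Measure.infinitePi fun _ : E => μ), ∀ (e : E), ∀ᵐ x ∂μ,
      (FinGS a b hlf J ↔ FinGS a b hlf (Function.update J e x)) := by
    rw [ae_all_iff]; intro e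
    refine influence μ (A := {J | FinGS a b hlf J}) (measurableSet_FinGS a b hlf) e fun S => ?_
    obtain ⟨f, g, hfg, hg⟩ := hmove' e S
    exact ⟨g, hg, fun J => FinGS_aut hlf (hSy f g hfg) J⟩
  have h4 : ∀ᵐ J ∂(Measure.infinitePi fun _ : E => μ), ∀ (e : E) (s : Bool) (δ : ℝ), 0 < δ →
      0 < μ (side (sp s) (J e) δ) := by
    rw [ae_all_iff]; intro e
    exact (measurePreserving_eval_infinitePi (fun _ : E => μ) e).quasiMeasurePreserving.ae
      (side_pos μ hμ)
  have h5 : ∀ᵐ J ∂(Measure.infinitePi fun _ : E => μ), ∀ e, ∀ᵐ x ∂μ,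
      P (Function.update J e x) := by
    rw [ae_all_iff]; intro e
    exact ae_update μ e hP
  filter_upwards [h1, h2, h3, h4, hP, h5] with J g1 g2 g3 g4 g5 g6 hfin
  refine no_rel a b hlf μ J F κ hκ P g5 g6 hlaw hfin g1 (fun e => ?_) g3 g4
  rw [ae_all_iff]
  exact g2 e

/-- **No finite relative energies**. -/
theorem ae_no_rel [DecidableEq E] [Countable V] [Countable E] (μ : Measure ℝ)
    [IsProbabilityMeasure μ]
    (hμ : ∀ x : ℝ, μ {x} = 0)
    (Sy : (V ≃ V) → (E ≃ E) → Prop) (hSy : ∀ f g, Sy f g → IsAut a b f g)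
    (hmove : ∀ (F : Finset E), ∃ f : V ≃ V, ∃ g : E ≃ E, Sy f g ∧ ∀ e ∈ F, g e ∉ F)
    (F : (E → ℝ) × ((V → Bool) × (V → Bool)) → EReal) (hFm : Measurable F)
    (hcov : ∀ (f : V ≃ V) (g : E ≃ E), Sy f g → ∀ (J : E → ℝ) (σ τ : V → Bool),
      F (fun e => J (g e), (fun v => σ (f v), fun v => τ (f v))) = F (J, (σ, τ)))
    (κ : ℝ) (hκ : κ ≠ 0)
    (P : (E → ℝ) → Prop) (hP : ∀ᵐ J ∂(Measure.infinitePi fun _ : E => μ), P J)
    (hlaw : ∀ (J : E → ℝ) (e : E) (x : ℝ) (σ τ : V → Bool), P J → P (Function.update J e x) →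
      WGS a b hlf J σ → WGS a b hlf J τ →
      WGS a b hlf (Function.update J e x) σ → WGS a b hlf (Function.update J e x) τ →
      status a b σ e ≠ status a b τ e →
      F (Function.update J e x, (σ, τ)) =
        F (J, (σ, τ)) + ((κ * (x - J e) * sp (status a b σ e) : ℝ) : EReal)) :
    ∀ᵐ J ∂(Measure.infinitePi fun _ : E => μ), FinGS a b hlf J →
      ∀ σ τ, WGS a b hlf J σ → WGS a b hlf J τ → Inc a b σ τ →
        F (J, (σ, τ)) = ⊤ ∨ F (J, (σ, τ)) = ⊥ := by
  rcases lt_or_gt_of_ne hκ with hneg | hpos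
  · have hswap : Measurable fun p : (E → ℝ) × ((V → Bool) × (V → Bool)) =>
        (p.1, (p.2.2, p.2.1)) :=
      measurable_fst.prodMk ((measurable_snd.comp measurable_snd).prodMk
        (measurable_fst.comp measurable_snd))
    have key := ae_no_rel_pos hlf μ hμ Sy hSy hmove (fun p => F (p.1, (p.2.2, p.2.1))) (hFm.comp hswap)
      (fun f g h J σ τ => hcov f g h J τ σ) (-κ) (by linarith) P hP (by
        intro J e x σ τ hp1 hp2 h1 h2 h3 h4 h5
        have h6 := hlaw J e x τ σ hp1 hp2 h2 h1 h4 h3 (Ne.symm h5)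
        have h7 : sp (status a b τ e) = - sp (status a b σ e) := by
          rw [← sp_not]
          congr 1
          revert h5
          cases status a b τ e <;> cases status a b σ e <;> simp
        rw [h7] at h6
        simp only
        rw [h6]
        congr 2
        ring)
    filter_upwards [key] with J hJ hfin σ τ hσ hτ hinc
    exact hJ hfin τ σ hτ hσ (by
      obtain ⟨e, he⟩ := hinc
      exact ⟨e, Ne.symm he⟩)
  · exact ae_no_rel_pos hlf μ hμ Sy hSy hmove F hFm hcov κ hpos P hP hlaw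

end rel

end Pool.Agent.Helper40.EA
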