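import Mathlib
import Pool.Agent.Helper40.EA.Rel

set_option autoImplicit false
open MeasureTheory Set Function
open scoped ENNReal

namespace Pool.Agent.Helper40.EA

open Pool.Agent.Helper23.EA
open Pool.Agent.Helper42.EA (IsAut Near)

/-! ### Upper limits along finite sets -/

section lim

variable {V : Type*}

/-- the upper limit along the directed set of finite sets -/
noncomputable def Lsup (D : Finset V → ℝ) : EReal :=
  ⨅ B₀ : Finset V, ⨆ B : {B : Finset V // B₀ ⊆ B}, ((D B.1 : ℝ) : EReal)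

lemma EReal_shift {x y : EReal} {c : ℝ} (h : x ≤ y + ((-c : ℝ) : EReal)) : x + (c : EReal) ≤ y := by
  have h1 : x + (c : EReal) ≤ (y + ((-c : ℝ) : EReal)) + (c : EReal) := by gcongr
  rwa [add_assoc, ← EReal.coe_add, neg_add_cancel, EReal.coe_zero, add_zero] at h1

lemma Lsup_shift_le (D D' : Finset V → ℝ) (K : Finset V) (c : ℝ)
    (h : ∀ B, K ⊆ B → D' B = D B + c) : Lsup D' ≤ Lsup D + (c : EReal) := by
  classical
  have h1 : Lsup D' + ((-c : ℝ) : EReal) ≤ Lsup D := by
    refine le_iInf fun B₀ => ?_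
    refine EReal_shift ?_
    rw [neg_neg]
    refine (iInf_le _ (B₀ ∪ K)).trans (iSup_le fun B => ?_)
    rw [h B.1 (Finset.union_subset_right B.2), EReal.coe_add]
    gcongr
    exact le_iSup (fun B : {B : Finset V // B₀ ⊆ B} => ((D B.1 : ℝ) : EReal))
      ⟨B.1, Finset.union_subset_left B.2⟩
  have h2 : Lsup D' + ((-c : ℝ) : EReal) + (c : EReal) ≤ Lsup D + (c : EReal) := by gcongr
  rwa [add_assoc, ← EReal.coe_add, neg_add_cancel, EReal.coe_zero, add_zero] at h2

lemma Lsup_shift (D D' : Finset V → ℝ) (K : Finset V) (c : ℝ)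
    (h : ∀ B, K ⊆ B → D' B = D B + c) : Lsup D' = Lsup D + (c : EReal) := by
  refine le_antisymm (Lsup_shift_le D D' K c h) ?_
  refine EReal_shift ?_
  exact Lsup_shift_le D' D K (-c) fun B hB => by rw [h B hB]; ring

lemma Lsup_comp (D : Finset V → ℝ) (f : V ≃ V) :
    Lsup (fun B => D (B.map f.toEmbedding)) = Lsup D := by
  unfold Lsup
  let φ : Finset V ≃ Finset V := f.finsetCongr
  have hφ : ∀ B, φ B = B.map f.toEmbedding := fun B => rfl
  refine Equiv.iInf_congr φ fun B₀ => ?_
  let ψ : {B : Finset V // B₀ ⊆ B} ≃ {B : Finset V // φ B₀ ⊆ B} :=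
    φ.subtypeEquiv fun B => by rw [hφ, hφ, Finset.map_subset_map]
  exact (Equiv.iSup_congr ψ fun B => rfl).symm

lemma Lsup_bot {D : Finset V → ℝ} (h : Lsup D = ⊥) (M : ℝ) :
    ∃ B₀ : Finset V, ∀ B, B₀ ⊆ B → D B ≤ M := by
  have h1 : Lsup D < (M : EReal) := by rw [h]; exact EReal.bot_lt_coe M
  obtain ⟨B₀, hB₀⟩ := iInf_lt_iff.1 h1
  refine ⟨B₀, fun B hB => ?_⟩
  have h2 := (le_iSup (fun B : {B : Finset V // B₀ ⊆ B} => ((D B.1 : ℝ) : EReal)) ⟨B, hB⟩).trans
    hB₀.le
  exact_mod_cast h2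

lemma Lsup_top {D : Finset V → ℝ} (h : Lsup D = ⊤) (M : ℝ) (B₀ : Finset V) :
    ∃ B, B₀ ⊆ B ∧ M ≤ D B := by
  have h1 : ((M : ℝ) : EReal) < ⨆ B : {B : Finset V // B₀ ⊆ B}, ((D B.1 : ℝ) : EReal) := by
    have : Lsup D ≤ ⨆ B : {B : Finset V // B₀ ⊆ B}, ((D B.1 : ℝ) : EReal) := iInf_le _ B₀
    rw [h, top_le_iff] at this
    rw [this]
    exact EReal.coe_lt_top M
  obtain ⟨B, hB⟩ := lt_iSup_iff.1 h1
  exact ⟨B.1, B.2, by exact_mod_cast hB.le⟩

end lim

/-! ### Crossing costs -/

section cost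

variable {V E : Type*} (a b : E → V) (hlf : ∀ v, {e | a e = v ∨ b e = v}.Finite)

/-- the infimum of the costs of the finite flips of `σ` which agree with `τ` up to a global flip
on `B` -/
noncomputable def cE (J : E → ℝ) (σ τ : V → Bool) (B : Finset V) : EReal := by
  classical
  exact ⨅ D : Finset V, if Near (Helper23.EA.flip σ D) τ B then (En a b hlf J σ D : EReal) else ⊤

/-- the same as a real number -/
noncomputable def cR (J : E → ℝ) (σ τ : V → Bool) (B : Finset V) : ℝ :=
  (cE a b hlf J σ τ B).toReal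

variable {a b hlf}

lemma exists_near [DecidableEq V] (σ τ : V → Bool) (B : Finset V) :
    Near (Helper23.EA.flip σ (B.filter fun v => σ v ≠ τ v)) τ B := by
  left
  intro v hv
  rw [flip_apply]
  by_cases h : σ v = τ v
  · simp [h]
  · have hm : v ∈ B.filter fun v => σ v ≠ τ v := Finset.mem_filter.2 ⟨hv, h⟩
    rw [if_pos hm]
    cases h1 : σ v <;> cases h2 : τ v <;> simp_all

lemma cE_ne_top (J : E → ℝ) (σ τ : V → Bool) (B : Finset V) : cE a b hlf J σ τ B ≠ ⊤ := by
  classical
  have h : cE a b hlf J σ τ B ≤ (En a b hlf J σ (B.filter fun v => σ v ≠ τ v) : EReal) := by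
    unfold cE
    refine (iInf_le _ (B.filter fun v => σ v ≠ τ v)).trans ?_
    rw [if_pos (exists_near σ τ B)]
  exact ne_top_of_le_ne_top (EReal.coe_ne_top _) h

lemma cE_nonneg {J : E → ℝ} {σ : V → Bool} (hσ : WGS a b hlf J σ) (τ : V → Bool)
    (B : Finset V) : 0 ≤ cE a b hlf J σ τ B := by
  classical
  unfold cE
  refine le_iInf fun D => ?_
  split_ifs
  · exact_mod_cast hσ D
  · exact le_top

lemma cE_eq_coe {J : E → ℝ} {σ : V → Bool} (hσ : WGS a b hlf J σ) (τ : V → Bool)
    (B : Finset V) : (cR a b hlf J σ τ B : EReal) = cE a b hlf J σ τ B :=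
  EReal.coe_toReal (cE_ne_top J σ τ B)
    (fun h => by
      have := cE_nonneg hσ τ B
      rw [h] at this
      exact absurd this (by simp))

/-- the real crossing cost is the infimum of a set of real numbers -/
lemma cR_eq_sInf {J : E → ℝ} {σ : V → Bool} (hσ : WGS a b hlf J σ) (τ : V → Bool)
    (B : Finset V) :
    cR a b hlf J σ τ B
      = sInf {c | ∃ D : Finset V, Near (Helper23.EA.flip σ D) τ B ∧ c = En a b hlf J σ D} := by
  classical
  set S := {c | ∃ D : Finset V, Near (Helper23.EA.flip σ D) τ B ∧ c = En a b hlf J σ D} with hS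
  have hne : S.Nonempty := ⟨_, _, exists_near σ τ B, rfl⟩
  have hbdd : BddBelow S := ⟨0, by rintro _ ⟨D, -, rfl⟩; exact hσ D⟩
  refine le_antisymm ?_ ?_
  · refine le_csInf hne ?_
    rintro _ ⟨D, hD, rfl⟩
    have h : cE a b hlf J σ τ B ≤ (En a b hlf J σ D : EReal) := by
      unfold cE
      refine (iInf_le _ D).trans ?_
      rw [if_pos hD]
    rw [← cE_eq_coe hσ] at h
    exact_mod_cast h
  · have h : ((sInf S : ℝ) : EReal) ≤ cE a b hlf J σ τ B := by
      unfold cE
      refine le_iInf fun D => ?_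
      split_ifs with hD
      · exact_mod_cast csInf_le hbdd ⟨D, hD, rfl⟩
      · exact le_top
    rw [← cE_eq_coe hσ] at h
    exact_mod_cast h

lemma measurable_cR [Countable V] [Countable E] (B : Finset V) :
    Measurable fun p : (E → ℝ) × ((V → Bool) × (V → Bool)) =>
      cR a b hlf p.1 p.2.1 p.2.2 B := by
  classical
  refine Measurable.ereal_toReal ?_
  unfold cE
  refine Measurable.iInf fun D => ?_
  refine Measurable.ite ?_ ?_ measurable_const
  · have : {p : (E → ℝ) × ((V → Bool) × (V → Bool)) | Near (Helper23.EA.flip p.2.1 D) p.2.2 B}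
        = (⋂ v ∈ B, {p : (E → ℝ) × ((V → Bool) × (V → Bool)) |
              Helper23.EA.flip p.2.1 D v = p.2.2 v}) ∪
            (⋂ v ∈ B, {p : (E → ℝ) × ((V → Bool) × (V → Bool)) |
              Helper23.EA.flip p.2.1 D v = !(p.2.2 v)}) := by
      ext p
      simp only [Near, mem_ofPred_eq, mem_iInter, mem_union]
    rw [this]
    refine MeasurableSet.union ?_ ?_
    · refine Finset.measurableSet_biInter _ fun v _ => measurableSet_eq_fun ?_ ?_
      · exact (measurable_flip D v).comp (measurable_fst.comp measurable_snd)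
      · exact (measurable_pi_apply v).comp (measurable_snd.comp measurable_snd)
    · refine Finset.measurableSet_biInter _ fun v _ => measurableSet_eq_fun ?_ ?_
      · exact (measurable_flip D v).comp (measurable_fst.comp measurable_snd)
      · exact (measurable_of_countable (fun x : Bool => !x)).comp
          ((measurable_pi_apply v).comp (measurable_snd.comp measurable_snd))
  · exact ((measurable_En a b hlf D).comp
      (measurable_fst.prodMk (measurable_fst.comp measurable_snd))).coe_real_ereal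

lemma cE_aut {f : V ≃ V} {g : E ≃ E} (h : IsAut a b f g) (J : E → ℝ) (σ τ : V → Bool)
    (B : Finset V) :
    cE a b hlf (fun e => J (g e)) (fun v => σ (f v)) (fun v => τ (f v)) B
      = cE a b hlf J σ τ (B.map f.toEmbedding) := by
  classical
  unfold cE
  let φ : Finset V ≃ Finset V := f.finsetCongr
  refine Equiv.iInf_congr φ fun D => ?_
  show (if Near (Helper23.EA.flip σ (D.map f.toEmbedding)) τ (B.map f.toEmbedding) then
      (En a b hlf J σ (D.map f.toEmbedding) : EReal) else ⊤) = _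
  rw [h.En, Helper42.EA.flip_transport]
  have := Helper42.EA.near_transport (f := f) (Helper23.EA.flip σ (D.map f.toEmbedding)) τ B
  simp only [this]

/-- a linear combination of the crossing costs in the two directions -/
noncomputable def dR (α β : ℝ) (a b : E → V) (hlf : ∀ v, {e | a e = v ∨ b e = v}.Finite)
    (J : E → ℝ) (σ τ : V → Bool) (B : Finset V) : ℝ :=
  α * cR a b hlf J σ τ B + β * cR a b hlf J τ σ B

lemma near_boundary {σ τ : V → Bool} {B D : Finset V} {e : E} (ha : a e ∈ B) (hb : b e ∈ B)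
    (h : Near (Helper23.EA.flip σ D) τ B) (he : status a b σ e ≠ status a b τ e) :
    e ∈ bd a b hlf D := by
  by_contra hnot
  have h1 := sp_flip_not_bd a b hlf σ D e hnot
  rw [sp_mul_sp_eq, sp_mul_sp_eq] at h1
  have h2 : status a b (Helper23.EA.flip σ D) e = status a b τ e := by
    unfold status
    rcases h with h | h
    · rw [h _ ha, h _ hb]
    · rw [h _ ha, h _ hb]
      cases τ (a e) <;> cases τ (b e) <;> rfl
  rw [h2] at h1
  exact he (sp_injective h1).symm

lemma cR_update [DecidableEq E] {J : E → ℝ} {e : E} {x : ℝ} {σ τ : V → Bool}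
    (hσ : WGS a b hlf J σ) (hσ' : WGS a b hlf (Function.update J e x) σ)
    (he : status a b σ e ≠ status a b τ e) {B : Finset V} (ha : a e ∈ B) (hb : b e ∈ B) :
    cR a b hlf (Function.update J e x) σ τ B
      = cR a b hlf J σ τ B + (x - J e) * sp (status a b σ e) := by
  classical
  rw [cR_eq_sInf hσ, cR_eq_sInf hσ']
  set c := (x - J e) * sp (status a b σ e) with hc
  set S := {c | ∃ D : Finset V, Near (Helper23.EA.flip σ D) τ B ∧ c = En a b hlf J σ D} with hS
  set S' := {c | ∃ D : Finset V, Near (Helper23.EA.flip σ D) τ B ∧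
    c = En a b hlf (Function.update J e x) σ D} with hS'
  have hne : S.Nonempty := ⟨_, _, exists_near σ τ B, rfl⟩
  have hbdd : BddBelow S := ⟨0, by rintro _ ⟨D, -, rfl⟩; exact hσ D⟩
  have hne' : S'.Nonempty := ⟨_, _, exists_near σ τ B, rfl⟩
  have hbdd' : BddBelow S' := ⟨0, by rintro _ ⟨D, -, rfl⟩; exact hσ' D⟩
  have hen : ∀ D : Finset V, Near (Helper23.EA.flip σ D) τ B →
      En a b hlf (Function.update J e x) σ D = En a b hlf J σ D + c := by
    intro D hD
    rw [En_update, if_pos (near_boundary ha hb hD he), sp_mul_sp_eq, hc]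
  refine le_antisymm ?_ ?_
  · rw [← sub_le_iff_le_add]
    refine le_csInf hne ?_
    rintro _ ⟨D, hD, rfl⟩
    rw [sub_le_iff_le_add, ← hen D hD]
    exact csInf_le hbdd' ⟨D, hD, rfl⟩
  · refine le_csInf hne' ?_
    rintro _ ⟨D, hD, rfl⟩
    rw [hen D hD]
    have := csInf_le hbdd ⟨D, hD, rfl⟩
    linarith

/-- the relative energy: the upper limit of the combinations of crossing costs -/
noncomputable def FD (α β : ℝ) (a b : E → V) (hlf : ∀ v, {e | a e = v ∨ b e = v}.Finite)
    (p : (E → ℝ) × ((V → Bool) × (V → Bool))) : EReal :=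
  Lsup fun B => dR α β a b hlf p.1 p.2.1 p.2.2 B

lemma measurable_FD [Countable V] [Countable E] (α β : ℝ) : Measurable (FD α β a b hlf) := by
  unfold FD Lsup
  refine Measurable.iInf fun B₀ => Measurable.iSup fun B => ?_
  refine Measurable.coe_real_ereal ?_
  unfold dR
  refine ((measurable_cR B.1).const_mul α).add (Measurable.const_mul ?_ β)
  exact (measurable_cR (a := a) (b := b) (hlf := hlf) B.1).comp (measurable_fst.prodMk
    ((measurable_snd.comp measurable_snd).prodMk (measurable_fst.comp measurable_snd)))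

lemma FD_aut (α β : ℝ) {f : V ≃ V} {g : E ≃ E} (h : IsAut a b f g) (J : E → ℝ)
    (σ τ : V → Bool) :
    FD α β a b hlf (fun e => J (g e), (fun v => σ (f v), fun v => τ (f v)))
      = FD α β a b hlf (J, (σ, τ)) := by
  unfold FD
  rw [← Lsup_comp (fun B => dR α β a b hlf J σ τ B) f]
  congr 1
  funext B
  unfold dR cR
  simp only
  rw [cE_aut h, cE_aut h]

lemma FD_law [DecidableEq E] (α β : ℝ) (J : E → ℝ) (e : E) (x : ℝ) (σ τ : V → Bool)
    (h1 : WGS a b hlf J σ) (h2 : WGS a b hlf J τ)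
    (h3 : WGS a b hlf (Function.update J e x) σ) (h4 : WGS a b hlf (Function.update J e x) τ)
    (he : status a b σ e ≠ status a b τ e) :
    FD α β a b hlf (Function.update J e x, (σ, τ)) =
        FD α β a b hlf (J, (σ, τ)) +
          (((α - β) * (x - J e) * sp (status a b σ e) : ℝ) : EReal) := by
  classical
  unfold FD
  refine Lsup_shift _ _ {a e, b e} _ fun B hB => ?_
  have ha : a e ∈ B := hB (by simp)
  have hb : b e ∈ B := hB (by simp)
  unfold dR
  simp only
  rw [cR_update h1 h3 he ha hb, cR_update h2 h4 (Ne.symm he) ha hb]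
  have h7 : sp (status a b τ e) = - sp (status a b σ e) := by
    rw [← sp_not]
    congr 1
    revert he
    cases status a b τ e <;> cases status a b σ e <;> simp
  rw [h7]
  ring

/-- **Trichotomy** for linear combinations of the crossing costs. -/
theorem ae_trichotomy [DecidableEq E] [Countable V] [Countable E] (μ : Measure ℝ)
    [IsProbabilityMeasure μ] (hμ : ∀ x : ℝ, μ {x} = 0)
    (hmove : ∀ (F : Finset E), ∃ f : V ≃ V, ∃ g : E ≃ E, IsAut a b f g ∧ ∀ e ∈ F, g e ∉ F)
    (α β : ℝ) (hαβ : α ≠ β) :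
    ∀ᵐ J ∂(Measure.infinitePi fun _ : E => μ), FinGS a b hlf J →
      ∀ σ τ, WGS a b hlf J σ → WGS a b hlf J τ → Inc a b σ τ →
        (∀ M, ∃ B₀ : Finset V, ∀ B, B₀ ⊆ B → M ≤ dR α β a b hlf J σ τ B) ∨
        (∀ M, ∃ B₀ : Finset V, ∀ B, B₀ ⊆ B → dR α β a b hlf J σ τ B ≤ M) ∨
        (∀ M, ∀ B₀ : Finset V, (∃ B, B₀ ⊆ B ∧ M ≤ dR α β a b hlf J σ τ B) ∧
          ∃ B, B₀ ⊆ B ∧ dR α β a b hlf J σ τ B ≤ M) := by
  have key : ∀ α β : ℝ, α ≠ β → ∀ᵐ J ∂(Measure.infinitePi fun _ : E => μ), FinGS a b hlf J →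
      ∀ σ τ, WGS a b hlf J σ → WGS a b hlf J τ → Inc a b σ τ →
        FD α β a b hlf (J, (σ, τ)) = ⊤ ∨ FD α β a b hlf (J, (σ, τ)) = ⊥ := fun α β h =>
    ae_no_rel hlf μ hμ (IsAut a b) (fun _ _ h => h) hmove (FD α β a b hlf) (measurable_FD α β)
      (fun f g h J σ τ => FD_aut α β h J σ τ) (α - β) (sub_ne_zero.2 h) (fun _ => True)
      (Filter.Eventually.of_forall fun _ => trivial)
      (fun J e x σ τ _ _ h1 h2 h3 h4 h5 => FD_law α β J e x σ τ h1 h2 h3 h4 h5)
  filter_upwards [key α β hαβ, key (-α) (-β) (fun h => hαβ (neg_injective h))] with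
    J hJ hJ' hfin σ τ hσ hτ hinc
  have hneg : ∀ B, dR (-α) (-β) a b hlf J σ τ B = - dR α β a b hlf J σ τ B := fun B => by
    unfold dR; ring
  rcases hJ hfin σ τ hσ hτ hinc with h1 | h1
  · rcases hJ' hfin σ τ hσ hτ hinc with h2 | h2
    · right; right
      intro M B₀
      refine ⟨Lsup_top h1 M B₀, ?_⟩
      obtain ⟨B, hB, h3⟩ := Lsup_top h2 (-M) B₀
      simp only at h3
      rw [hneg] at h3
      exact ⟨B, hB, by linarith⟩
    · left
      intro M
      obtain ⟨B₀, h3⟩ := Lsup_bot h2 (-M)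
      refine ⟨B₀, fun B hB => ?_⟩
      have := h3 B hB
      simp only at this
      rw [hneg] at this
      linarith
  · right; left
    intro M
    exact Lsup_bot h1 M

end cost

end Pool.Agent.Helper40.EA
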