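import Mathlib
import Pool.Agent.Helper40.EA.Diff

set_option autoImplicit false
open MeasureTheory Set Filter

namespace Pool.Agent.Results.MP_37ff18_mp.BarrierAsymmetry

/-- The energy difference `H(ρ) - H(σ)` of two spin configurations which differ at finitely many
vertices, where `H(σ) = - ∑_{xy ∈ E(G)} J_{xy} σ_x σ_y`. -/
noncomputable def energyDiff {V : Type*} (G : SimpleGraph V) (J : G.edgeSet → ℝ)
    (σ ρ : V → ℝ) : ℝ :=
  ∑ᶠ e : G.edgeSet, J e * (((e : Sym2 V).map σ).mul - ((e : Sym2 V).map ρ).mul)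

/-- `σ` is an infinite-volume ground state of the Edwards–Anderson Hamiltonian
`H(σ) = - ∑_{xy ∈ E(G)} J_{xy} σ_x σ_y` on the graph `G`: it is a `±1` configuration and
`H(σ') - H(σ) > 0` for every `±1` configuration `σ' ≠ σ` which differs from `σ` at finitely many
vertices. -/
def IsGroundState {V : Type*} (G : SimpleGraph V) (J : G.edgeSet → ℝ) (σ : V → ℝ) : Prop :=
  (∀ x, σ x = 1 ∨ σ x = -1) ∧
    ∀ σ' : V → ℝ, (∀ x, σ' x = 1 ∨ σ' x = -1) → {x | σ' x ≠ σ x}.Finite → σ' ≠ σ →
      0 < energyDiff G J σ σ'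

/-- The set of ground states. -/
def groundStates {V : Type*} (G : SimpleGraph V) (J : G.edgeSet → ℝ) : Set (V → ℝ) :=
  {σ | IsGroundState G J σ}

/-- The cost of crossing from `σ` to `τ` (or `-τ`) on the finite set `B` of vertices: the infimum
of `H(ρ) - H(σ)` over the `±1` configurations `ρ` which differ from `σ` at finitely many vertices
and agree with `τ` or with `-τ` on `B`. -/
noncomputable def crossingCost {V : Type*} (G : SimpleGraph V) (J : G.edgeSet → ℝ)
    (σ τ : V → ℝ) (B : Finset V) : ℝ :=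
  sInf {c | ∃ ρ : V → ℝ, (∀ x, ρ x = 1 ∨ ρ x = -1) ∧ {x | ρ x ≠ σ x}.Finite ∧
    ((∀ x ∈ B, ρ x = τ x) ∨ (∀ x ∈ B, ρ x = - τ x)) ∧ c = energyDiff G J σ ρ}

section aux

open Pool.Agent.Helper23.EA Pool.Agent.Helper42.EA Pool.Agent.Helper40.EA

variable {V : Type*} {G : SimpleGraph V}
  {hlf : ∀ v, {e : G.edgeSet | ea G e = v ∨ eb G e = v}.Finite}

theorem groundState_iff_WGS [Infinite V] (hG : G.Connected) {J : G.edgeSet → ℝ}
    (hnt : NoTie (ea G) (eb G) hlf J) {σ : V → ℝ} :
    IsGroundState G J σ ↔ ∃ s, σ = sp ∘ s ∧ WGS (ea G) (eb G) hlf J s := by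
  classical
  constructor
  · rintro ⟨h1, h2⟩
    obtain ⟨s, rfl⟩ := exists_bool σ h1
    refine ⟨s, rfl, fun A => ?_⟩
    have h3 := (groundState_iff hlf J s).1 h2
    by_cases hA : A.Nonempty
    · exact (h3 A hA).le
    · rw [Finset.not_nonempty_iff_eq_empty] at hA
      subst hA
      rw [En_empty]
  · rintro ⟨s, rfl, hs⟩
    refine ⟨fun x => sp_eq_or _, (groundState_iff hlf J s).2 fun A hA => ?_⟩
    exact lt_of_le_of_ne (hs A) (Ne.symm (hnt A s (bd_nonempty hlf hG A hA)))

theorem finite_iff [Infinite V] (hG : G.Connected) {J : G.edgeSet → ℝ}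
    (hnt : NoTie (ea G) (eb G) hlf J) :
    (groundStates G J).Finite ↔ FinGS (ea G) (eb G) hlf J := by
  have h1 : groundStates G J = (fun s : V → Bool => sp ∘ s) ''
      {s : V → Bool | WGS (ea G) (eb G) hlf J s} := by
    ext σ
    constructor
    · intro h
      obtain ⟨s, h2, h3⟩ := (groundState_iff_WGS hG hnt).1 h
      exact ⟨s, h3, h2.symm⟩
    · rintro ⟨s, h3, rfl⟩
      exact (groundState_iff_WGS hG hnt).2 ⟨s, rfl, h3⟩
  have hinj : Function.Injective (fun s : V → Bool => sp ∘ s) := by
    intro s t h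
    funext v
    exact sp_injective (congrFun h v)
  rw [h1, Set.finite_image_iff hinj.injOn]
  rfl

theorem inc_of_ne (hG : G.Connected) {s t : V → Bool} (h1 : sp ∘ t ≠ sp ∘ s)
    (h2 : sp ∘ t ≠ -(sp ∘ s)) : Inc (ea G) (eb G) s t := by
  by_contra hcon
  unfold Inc at hcon
  push Not at hcon
  rcases eq_or_eq_not hG s t hcon with rfl | rfl
  · exact h1 rfl
  · refine h2 ?_
    funext v
    simp [sp_not]

theorem exists_moving_edges' (hmove : ∀ F : Finset V, ∃ f : G ≃g G, ∀ v ∈ F, f v ∉ F)
    (F : Finset G.edgeSet) :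
    ∃ f : V ≃ V, ∃ g : G.edgeSet ≃ G.edgeSet,
      (∃ φ : G ≃g G, f = φ.toEquiv ∧ g = φ.mapEdgeSet) ∧ ∀ e ∈ F, g e ∉ F := by
  classical
  set U := F.image (ea G) ∪ F.image (eb G) with hU
  obtain ⟨f, hf⟩ := hmove U
  refine ⟨f.toEquiv, f.mapEdgeSet, ⟨f, rfl, rfl⟩, fun e he hge => ?_⟩
  have h1 : ea G e ∈ U := Finset.mem_union_left _ (Finset.mem_image_of_mem _ he)
  have h2 : eb G e ∈ U := Finset.mem_union_right _ (Finset.mem_image_of_mem _ he)
  have h3 : ea G (f.mapEdgeSet e) ∈ U := Finset.mem_union_left _ (Finset.mem_image_of_mem _ hge)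
  rcases isAut_iso f e with ⟨h4, _⟩ | ⟨h4, _⟩
  · rw [h4] at h3
    exact hf _ h1 h3
  · rw [h4] at h3
    exact hf _ h2 h3

theorem crossingCost_eq {J : G.edgeSet → ℝ} {s : V → Bool}
    (hs : WGS (ea G) (eb G) hlf J s) (t : V → Bool) (B : Finset V) :
    crossingCost G J (sp ∘ s) (sp ∘ t) B = 2 * cR (ea G) (eb G) hlf J s t B := by
  classical
  rw [cR_eq_sInf hs]
  set S := {c | ∃ D : Finset V, Near (Pool.Agent.Helper23.EA.flip s D) t B ∧
    c = En (ea G) (eb G) hlf J s D} with hS
  have hne : S.Nonempty := ⟨_, _, exists_near s t B, rfl⟩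
  have hbdd : BddBelow S := ⟨0, by rintro _ ⟨D, -, rfl⟩; exact hs D⟩
  have hset : {c | ∃ ρ : V → ℝ, (∀ x, ρ x = 1 ∨ ρ x = -1) ∧ {x | ρ x ≠ (sp ∘ s) x}.Finite ∧
      ((∀ x ∈ B, ρ x = (sp ∘ t) x) ∨ (∀ x ∈ B, ρ x = - (sp ∘ t) x)) ∧
        c = energyDiff G J (sp ∘ s) ρ} = (fun c => 2 * c) '' S := by
    ext c
    constructor
    · rintro ⟨ρ, hρ, hfin, hB, rfl⟩
      obtain ⟨r, rfl⟩ := exists_bool ρ hρ
      set D : Finset V := hfin.toFinset with hD
      have hr : r = Pool.Agent.Helper23.EA.flip s D := by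
        funext x
        unfold Pool.Agent.Helper23.EA.flip
        by_cases hx : x ∈ D
        · have hx' : (sp ∘ r) x ≠ (sp ∘ s) x := by simpa [hD] using hx
          have : r x ≠ s x := fun h => hx' (by simp [h])
          simp only [hx, if_true]
          cases h1 : r x <;> cases h2 : s x <;> simp_all
        · have hx' : (sp ∘ r) x = (sp ∘ s) x := by
            by_contra hc; exact hx (by simpa [hD] using hc)
          simp only [hx, if_false]
          exact sp_injective hx'
      refine ⟨En (ea G) (eb G) hlf J s D, ⟨D, ?_, rfl⟩, ?_⟩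
      · rw [← hr]
        rcases hB with hB | hB
        · exact Or.inl fun v hv => sp_injective (hB v hv)
        · refine Or.inr fun v hv => sp_injective ?_
          have := hB v hv
          simp only [Function.comp] at this
          rw [sp_not, ← this]
      · unfold energyDiff
        rw [hr, finsum_flip hlf]
    · rintro ⟨_, ⟨D, hB, rfl⟩, rfl⟩
      refine ⟨sp ∘ (Pool.Agent.Helper23.EA.flip s D), fun x => sp_eq_or _,
        flip_diff_finite s D, ?_, ?_⟩
      · rcases hB with hB | hB
        · exact Or.inl fun v hv => by simp only [Function.comp]; rw [hB v hv]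
        · exact Or.inr fun v hv => by simp only [Function.comp]; rw [hB v hv, sp_not]
      · unfold energyDiff
        rw [finsum_flip hlf]
  unfold crossingCost
  rw [hset]
  refine le_antisymm ?_ ?_
  · have h1 : sInf ((fun c => 2 * c) '' S) / 2 ≤ sInf S := by
      refine le_csInf hne fun c hc => ?_
      have : sInf ((fun c => 2 * c) '' S) ≤ 2 * c := by
        refine csInf_le ⟨0, ?_⟩ ⟨c, hc, rfl⟩
        rintro _ ⟨_, ⟨D, -, rfl⟩, rfl⟩
        have := hs D
        simp only
        linarith
      linarith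
    linarith
  · refine le_csInf (hne.image _) ?_
    rintro _ ⟨c, hc, rfl⟩
    have := csInf_le hbdd hc
    simp only
    linarith

end aux

open Pool.Agent.Helper23.EA Pool.Agent.Helper42.EA Pool.Agent.Helper40.EA in
/-- **Barrier heights between incongruent ground states admit no linear relation.** Let `G` be an
infinite connected locally finite graph whose automorphisms move every finite set of vertices off
itself (for example any infinite vertex-transitive graph such as `ℤ^d`, or the half-space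
`ℤ^{d-1} × ℕ` with `d ≥ 2`), with i.i.d. couplings whose law `μ` has no atoms, and let `α ≠ β` be
real numbers. Almost surely, if there are only finitely many ground states, then for all
incongruent ground states `σ`, `τ` the combination `Δ_B` of `α` times the cost of crossing from
`σ` to `τ` on `B` and `β` times the cost of crossing from `τ` to `σ` on `B` tends to `+∞`, or
tends to `-∞`, or takes arbitrarily large and arbitrarily small values arbitrarily far out, as the
finite set `B` increases to the whole graph. -/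
theorem result {V : Type*} [Countable V] [Infinite V] (G : SimpleGraph V) (hG : G.Connected)
    (hlf : ∀ x, (G.neighborSet x).Finite)
    (hmove : ∀ F : Finset V, ∃ f : G ≃g G, ∀ v ∈ F, f v ∉ F)
    (μ : ProbabilityMeasure ℝ) (hμ : ∀ x, (μ : Measure ℝ) {x} = 0) (α β : ℝ) (hαβ : α ≠ β) :
    ∀ᵐ J ∂(Measure.infinitePi fun _ : G.edgeSet => (μ : Measure ℝ)),
      (groundStates G J).Finite → ∀ σ ∈ groundStates G J, ∀ τ ∈ groundStates G J,
        τ ≠ σ → τ ≠ -σ →
          Tendsto (fun B => α * crossingCost G J σ τ B + β * crossingCost G J τ σ B)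
            atTop atTop ∨
          Tendsto (fun B => α * crossingCost G J σ τ B + β * crossingCost G J τ σ B)
            atTop atBot ∨
          ∀ M : ℝ,
            (∃ᶠ B in atTop, M ≤ α * crossingCost G J σ τ B + β * crossingCost G J τ σ B) ∧
            (∃ᶠ B in atTop, α * crossingCost G J σ τ B + β * crossingCost G J τ σ B ≤ M) := by
  classical
  have hlf' := graph_lf G hlf
  have : NullSingletonClass (μ : Measure ℝ) := ⟨fun x => hμ x⟩
  have hnt := ae_noTie (ea G) (eb G) hlf' (fun _ : G.edgeSet => (μ : Measure ℝ))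
  have hmv := exists_moving_edges' hmove
  have key := ae_trichotomy (hlf := hlf') (μ : Measure ℝ) hμ (by
    intro S
    obtain ⟨f, g, ⟨φ, rfl, rfl⟩, h⟩ := hmv S
    exact ⟨_, _, isAut_iso φ, h⟩) α β hαβ
  filter_upwards [key, hnt] with J hJ hn hfin σ hσ τ hτ h1 h2
  obtain ⟨s, rfl, hs⟩ := (groundState_iff_WGS hG hn).1 hσ
  obtain ⟨t, rfl, ht⟩ := (groundState_iff_WGS hG hn).1 hτ
  have hd : ∀ B, α * crossingCost G J (sp ∘ s) (sp ∘ t) B
      + β * crossingCost G J (sp ∘ t) (sp ∘ s) B
      = 2 * dR α β (ea G) (eb G) hlf' J s t B := by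
    intro B
    rw [crossingCost_eq hs, crossingCost_eq ht]
    unfold dR
    ring
  simp only [hd]
  rcases hJ ((finite_iff hG hn).1 hfin) s t hs ht (inc_of_ne hG h1 h2) with h | h | h
  · left
    rw [tendsto_atTop]
    intro M
    obtain ⟨B₀, hB₀⟩ := h (M / 2)
    filter_upwards [eventually_ge_atTop B₀] with B hB
    have := hB₀ B hB
    linarith
  · right; left
    rw [tendsto_atBot]
    intro M
    obtain ⟨B₀, hB₀⟩ := h (M / 2)
    filter_upwards [eventually_ge_atTop B₀] with B hB
    have := hB₀ B hB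
    linarith
  · right; right
    intro M
    constructor
    · rw [frequently_atTop]
      intro B₀
      obtain ⟨⟨B, hB, h3⟩, -⟩ := h (M / 2) B₀
      exact ⟨B, hB, by linarith⟩
    · rw [frequently_atTop]
      intro B₀
      obtain ⟨-, B, hB, h3⟩ := h (M / 2) B₀
      exact ⟨B, hB, by linarith⟩

end Pool.Agent.Results.MP_37ff18_mp.BarrierAsymmetry
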